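import Pool.Agent.P.MP_cb5d8b_an.Mp.Tile

/-! Sections and charts of the double, and the folding map. -/

namespace Pool.Agent.P.MP_cb5d8b_an.Mp

open Set Metric Filter Topology Complex

namespace Dbl

variable {pr : S2 → ℂ} {ht : S2 → ℝ}

theorem nn (D : Dbl pr ht) (x : S2) : 0 ≤ rho (pr x) := D.abs x ▸ abs_nonneg _

theorem sheet (D : Dbl pr ht) (x : S2) : ∃ s : ℝ, (s = 1 ∨ s = -1) ∧ ht x = s * rho (pr x) := by
  rcases abs_choice (ht x) with h | h
  · exact ⟨1, Or.inl rfl, by rw [← D.abs, h, one_mul]⟩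
  · exact ⟨-1, Or.inr rfl, by rw [← D.abs, h]; ring⟩

theorem ind (D : Dbl pr ht) : IsInducing fun x => (pr x, ht x) :=
  ((D.cpr.prodMk D.cht).isClosedEmbedding fun x y e =>
    D.inj x y (congrArg Prod.fst e) (congrArg Prod.snd e)).isInducing

theorem lift (D : Dbl pr ht) {Z : Type} [TopologicalSpace Z] {K : Set Z} {P : Z → ℂ} {W : Z → ℝ}
    (hP : ContinuousOn P K) (hW : ContinuousOn W K) (h : ∀ z ∈ K, |W z| = rho (P z)) :
    ∃ g : Z → S2, ContinuousOn g K ∧ ∀ z ∈ K, pr (g z) = P z ∧ ht (g z) = W z := by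
  have : Nonempty S2 := ⟨(D.surj 0 0 (by simp [rho])).choose⟩
  choose! g hg using fun z (hz : z ∈ K) => D.surj (P z) (W z) (h z hz)
  exact ⟨g, D.ind.continuousOn_iff.2 ((hP.prodMk hW).congr fun z hz =>
    Prod.ext (hg z hz).1 (hg z hz).2), hg⟩

theorem sec (D : Dbl pr ht) {s : ℝ} (hs : s = 1 ∨ s = -1) : ∃ g : ℂ → S2,
    ContinuousOn g {p | 0 ≤ rho p} ∧ ∀ p, 0 ≤ rho p → pr (g p) = p ∧ ht (g p) = s * rho p :=
  D.lift (K := {p | 0 ≤ rho p}) (P := id) (W := fun p => s * rho p) continuousOn_id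
    (continuous_const.mul rho_cont).continuousOn fun p hp => by
      rcases hs with rfl | rfl <;> simp [abs_of_nonneg (show 0 ≤ rho p from hp)]

theorem ext0 (D : Dbl pr ht) {x y : S2} (e : pr x = pr y) (h : rho (pr x) = 0) : x = y :=
  D.inj x y e (by rw [abs_eq_zero.1 ((D.abs x).trans h), abs_eq_zero.1 ((D.abs y).trans (e ▸ h))])

theorem ext1 (D : Dbl pr ht) {x y : S2} (e : pr x = pr y) {c : ℝ} (h : 0 < c * ht x)
    (h' : 0 < c * ht y) : x = y := by
  refine D.inj x y e ?_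
  rcases abs_eq_abs.1 ((D.abs x).trans (e ▸ (D.abs y).symm)) with h2 | h2
  · exact h2
  · rw [h2] at h
    linarith

theorem fin (D : Dbl pr ht) (p : ℂ) : (pr ⁻¹' {p}).Finite := by
  refine Finite.of_finite_image (f := ht) ((toFinite {rho p, -rho p}).subset ?_)
    fun x hx y hy e => D.inj x y (hx.trans hy.symm) e
  rintro _ ⟨x, hx, rfl⟩
  obtain rfl : pr x = p := hx
  obtain ⟨s, rfl | rfl, e⟩ := D.sheet x <;> simp [e]

theorem val {a b c s : ℝ} (hc : 0 < c) :
    s * min c (min a b) * max 1 (min a b / c) = s * min a b := by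
  rcases le_total (min a b) c with h | h
  · rw [min_eq_right h, max_eq_left ((div_le_one hc).2 h), mul_one]
  · rw [min_eq_left h, max_eq_right ((one_le_div hc).2 h), mul_assoc, mul_div_cancel₀ _ hc.ne']

theorem chart0 (D : Dbl pr ht) : ∃ σ : OpenPartialHomeomorph S2 ℂ,
    σ.source = {x | 0 < 1 - (pr x).re - (pr x).im} ∧ ∀ x ∈ σ.source, ∀ s : ℝ,
      ht x = s * rho (pr x) → σ x = ⟨(pr x).re - (pr x).im, s * min (pr x).re (pr x).im⟩ := by
  have cp := D.cpr
  have ch := D.cht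
  obtain ⟨φ, hφ⟩ : ∃ φ : S2 → ℂ, ∀ x, φ x = ⟨(pr x).re - (pr x).im,
      ht x * max 1 (min (pr x).re (pr x).im / (1 - (pr x).re - (pr x).im))⟩ := ⟨_, fun _ => rfl⟩
  have v : ∀ x, 0 < 1 - (pr x).re - (pr x).im → ∀ s : ℝ, ht x = s * rho (pr x) →
      φ x = ⟨(pr x).re - (pr x).im, s * min (pr x).re (pr x).im⟩ := fun x hx s e => by
    rw [hφ, e, rho, val hx]
  have mx : ∀ a : ℝ, max a 0 + max (-a) 0 = |a| ∧ max a 0 - max (-a) 0 = a ∧
      min (max a 0) (max (-a) 0) = 0 := fun a => by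
    rcases le_total 0 a with h | h
    · simp [h, abs_of_nonneg h]
    · simp [h, abs_of_nonpos h]
  have cl : ∀ c b : ℝ, 0 < c → ∃ s : ℝ, s * |b| = b ∧ (s = 1 ∨ s = -1) ∧
      max (-c) (min c b) = s * min c |b| := fun c b hc => by
    rcases le_total 0 b with h | h
    · exact ⟨1, by simp [abs_of_nonneg h], Or.inl rfl, by
        rw [abs_of_nonneg h, one_mul, max_eq_right (le_min (by linarith) (by linarith))]⟩
    · exact ⟨-1, by simp [abs_of_nonpos h], Or.inr rfl, by
        rw [abs_of_nonpos h, min_eq_right (by linarith), neg_one_mul, ← max_neg_neg, neg_neg]⟩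
  obtain ⟨P, hP⟩ : ∃ P : ℂ → ℂ, ∀ z, P z = ⟨max z.re 0 + |z.im|, max (-z.re) 0 + |z.im|⟩ :=
    ⟨_, fun _ => rfl⟩
  have P0 : ∀ z, 1 - (P z).re - (P z).im = 1 - |z.re| - 2 * |z.im| := fun z => by
    rw [hP]
    linarith [(mx z.re).1]
  have P1 : ∀ z, min (P z).re (P z).im = |z.im| := fun z => by
    simp only [hP, min_add_add_right, (mx z.re).2.2, zero_add]
  obtain ⟨g, gc, hg⟩ := D.lift (K := {z : ℂ | 0 < 1 - |z.re| - 2 * |z.im|}) (P := P)
    (W := fun z => max (-(1 - |z.re| - 2 * |z.im|)) (min (1 - |z.re| - 2 * |z.im|) z.im))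
    (by
      rw [funext hP]
      simp only [Complex.mk_eq_add_mul_I]
      fun_prop) (by fun_prop) fun z hz => by
      obtain ⟨s, -, hs, e⟩ := cl _ z.im hz
      have : 0 ≤ min (1 - |z.re| - 2 * |z.im|) |z.im| := le_min (le_of_lt hz) (abs_nonneg _)
      rw [e, rho, P0, P1]
      rcases hs with rfl | rfl <;> simp [abs_of_nonneg this]
  have k : ∀ x, 0 < 1 - (pr x).re - (pr x).im → P (φ x) = pr x ∧
      ∃ s : ℝ, (s = 1 ∨ s = -1) ∧ ht x = s * rho (pr x) ∧
        (φ x).im = s * min (pr x).re (pr x).im := fun x hx => by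
    obtain ⟨s, hs, e⟩ := D.sheet x
    obtain ⟨-, h2, h3⟩ := le_rho.1 (D.nn x)
    have a : |s * min (pr x).re (pr x).im| = min (pr x).re (pr x).im := by
      rcases hs with rfl | rfl <;> simp [abs_of_nonneg (le_min h2 h3)]
    refine ⟨?_, s, hs, e, by rw [v x hx s e]⟩
    rw [hP, v x hx s e]
    apply Complex.ext <;> simp only [a]
    · rcases le_total (pr x).re (pr x).im with h | h <;> simp [h]
    · rcases le_total (pr x).re (pr x).im with h | h <;> simp [h]
  have m1 : ∀ x, 0 < 1 - (pr x).re - (pr x).im → 0 < 1 - |(φ x).re| - 2 * |(φ x).im| :=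
    fun x hx => by rwa [← P0, (k x hx).1]
  refine ⟨{ toFun := φ
            invFun := g
            source := {x | 0 < 1 - (pr x).re - (pr x).im}
            target := {z : ℂ | 0 < 1 - |z.re| - 2 * |z.im|}
            map_source' := m1
            map_target' := fun z hz => ?_
            left_inv' := fun x hx => ?_
            right_inv' := fun z hz => ?_
            open_source := isOpen_lt continuous_const (by fun_prop)
            open_target := isOpen_lt continuous_const (by fun_prop)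
            continuousOn_toFun := ?_
            continuousOn_invFun := gc }, rfl, v⟩
  · show 0 < 1 - (pr (g z)).re - (pr (g z)).im
    rw [(hg z hz).1, P0]
    exact hz
  · obtain ⟨k1, s, hs, e1, e2⟩ := k x hx
    obtain ⟨g1, g2⟩ := hg _ (m1 x hx)
    refine D.inj _ _ (g1.trans k1) ?_
    obtain ⟨-, h2, h3⟩ := le_rho.1 (D.nn x)
    have h4 := le_min h2 h3
    have h5 : 0 < 1 - (pr x).re - (pr x).im := hx
    rw [g2, ← P0, k1, e2, e1, rho]
    rcases hs with rfl | rfl
    · rw [one_mul, one_mul, max_eq_right (le_min (by linarith) (by linarith))]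
    · rw [neg_one_mul, neg_one_mul, min_eq_right (by linarith), max_neg_neg]
  · obtain ⟨g1, g2⟩ := hg z hz
    obtain ⟨s, e1, -, e⟩ := cl _ z.im hz
    rw [v _ (by rw [g1, P0]; exact hz) s (by rw [g2, e, g1, rho, P0, P1]), g1, P1, e1]
    exact Complex.ext (by simp only [hP]; linarith [(mx z.re).2.1]) rfl
  · rw [funext hφ]
    simp only [Complex.mk_eq_add_mul_I]
    have : ContinuousOn (fun x => min (pr x).re (pr x).im / (1 - (pr x).re - (pr x).im))
        {x | 0 < 1 - (pr x).re - (pr x).im} :=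
      ContinuousOn.div (by fun_prop) (by fun_prop) fun x hx => ne_of_gt hx
    fun_prop

/-- The two linear pieces of a chart. -/
def pc (s : ℝ) (b : Bool) : Af := if b then (⟨1, s⟩, ⟨-1, 0⟩, 0) else (⟨1, 0⟩, ⟨-1, s⟩, 0)

/-- The rotations of the triangle. -/
def rot : Fin 3 → Af := ![(1, I, 0), (⟨0, -1⟩, ⟨1, -1⟩, I), (⟨-1, 1⟩, ⟨-1, 0⟩, 1)]

theorem rot_re (j : Fin 3) (p : ℂ) :
    (af (rot j) p).re = ![p.re, p.im, 1 - p.re - p.im] j := by
  fin_cases j <;> simp [af, li, rot] <;> ring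

theorem rot_im (j : Fin 3) (p : ℂ) :
    (af (rot j) p).im = ![p.im, 1 - p.re - p.im, p.re] j := by
  fin_cases j <;> simp [af, li, rot] <;> ring

theorem rot_dt (j : Fin 3) : dt (rot j) = 1 := by
  fin_cases j <;> simp [dt, rot]

theorem rot_rho (j : Fin 3) (p : ℂ) : rho (af (rot j) p) = rho p := by
  refine eq_of_forall_le_iff fun r => ?_
  rw [le_rho, le_rho, rot_re, rot_im]
  rcases three j with rfl | rfl | rfl <;> simp only [Matrix.cons_val] <;>
    constructor <;> rintro ⟨a, b, c⟩ <;> refine ⟨?_, ?_, ?_⟩ <;> linarith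

theorem rotD (D : Dbl pr ht) (j : Fin 3) : Dbl (fun x => af (rot j) (pr x)) ht := by
  have h0 : dt (rot j) ≠ 0 := by simp [rot_dt]
  refine ⟨(af_cont _).comp D.cpr, D.cht, fun x => by rw [rot_rho, D.abs],
    fun x y e => D.inj x y (af_inj h0 e), fun p w h => ?_⟩
  obtain ⟨x, h1, h2⟩ := D.surj (af (iv (rot j)) p) w (by rw [h, ← rot_rho j (af (iv (rot j)) p), af_iv h0])
  exact ⟨x, by rw [h1, af_iv h0], h2⟩

theorem charts (D : Dbl pr ht) : ∃ (σ : Fin 3 → OpenPartialHomeomorph S2 ℂ) (M : Set Af),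
    M.Finite ∧ (∀ x, ∃ i, x ∈ (σ i).source) ∧ ∀ i, ∀ x ∈ (σ i).source, ∀ s : ℝ, s = 1 ∨ s = -1 →
      ht x = s * rho (pr x) → ∃ m ∈ M, σ i x = af m (pr x) ∧ 0 < s * dt m := by
  choose σ h1 h2 using fun j => (D.rotD j).chart0
  refine ⟨σ, range fun t : Fin 3 × Bool × Bool => cp (pc (if t.2.1 then 1 else -1) t.2.2) (rot t.1),
    finite_range _, fun x => ?_, fun i x hx s hs e => ?_⟩
  · by_contra hn
    push Not at hn
    have a0 := hn 0
    have a1 := hn 1
    have a2 := hn 2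
    simp only [h1, mem_setOf_eq, rot_re, rot_im, Matrix.cons_val, not_lt] at a0 a1 a2
    linarith
  · obtain ⟨c, hc⟩ : ∃ c : Bool, s = if c then 1 else -1 := by
      rcases hs with rfl | rfl
      exacts [⟨true, rfl⟩, ⟨false, rfl⟩]
    have s2 : 0 < s * s := by rcases hs with rfl | rfl <;> norm_num
    have e2 := h2 i x hx s (by rwa [rot_rho])
    rcases le_total (af (rot i) (pr x)).re (af (rot i) (pr x)).im with h | h
    · refine ⟨_, ⟨(i, c, true), rfl⟩, ?_, ?_⟩
      · simp only [← hc, af_cp, e2, min_eq_left h]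
        generalize af (rot i) (pr x) = z
        apply Complex.ext <;> simp [af, li, pc] <;> ring
      · simp only [← hc, dt_cp, rot_dt]
        simpa [dt, pc] using s2
    · refine ⟨_, ⟨(i, c, false), rfl⟩, ?_, ?_⟩
      · simp only [← hc, af_cp, e2, min_eq_right h]
        generalize af (rot i) (pr x) = z
        apply Complex.ext <;> simp [af, li, pc] <;> ring
      · simp only [← hc, dt_cp, rot_dt]
        simpa [dt, pc] using s2

theorem pl (D : Dbl pr ht) : ∃ σ : Fin 3 → OpenPartialHomeomorph S2 ℂ,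
    (∀ x, ∃ i, x ∈ (σ i).source) ∧ ∀ f : S2 → S2, Continuous f → ∀ T : Set Af, T.Finite →
      (∀ x, ∃ t ∈ T, ∃ s s' : ℝ, (s = 1 ∨ s = -1) ∧ (s' = 1 ∨ s' = -1) ∧
        pr x = af t (pr (f x)) ∧ ht x = s * rho (pr x) ∧ ht (f x) = s' * rho (pr (f x)) ∧
        0 < s * s' * dt t) → PL σ f := by
  obtain ⟨σ, M, hM, cov, h⟩ := D.charts
  refine ⟨σ, cov, fun f hf T hT hx i k => ⟨(σ i).isOpen_inter_preimage_symm
    ((σ k).open_source.preimage hf), (σ k).continuousOn.comp
      (hf.comp_continuousOn ((σ i).continuousOn_symm.mono inter_subset_left)) fun z hz => hz.2,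
    ((fun w : Af × Af × Af => (cp w.1 w.2.1, w.2.2)) '' (M ×ˢ T ×ˢ M)) ∩
      {m | 0 < dt m.1 * dt m.2}, ((hM.prod (hT.prod hM)).image _).inter_of_left _,
    fun m hm => hm.2, fun z hz => ?_⟩⟩
  obtain ⟨t, tT, s, s', hs, hs', e1, e2, e3, e4⟩ := hx ((σ i).symm z)
  obtain ⟨m, mM, a1, a2⟩ := h i _ ((σ i).map_target hz.1) s hs e2
  obtain ⟨m', mM', b1, b2⟩ := h k _ hz.2 s' hs' e3
  refine ⟨(cp m t, m'), ⟨⟨(m, t, m'), ⟨mM, tT, mM'⟩, rfl⟩, ?_⟩, pr (f ((σ i).symm z)), ?_, b1⟩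
  · show 0 < dt (cp m t) * dt m'
    have := mul_pos (mul_pos a2 b2) e4
    rw [dt_cp]
    rcases hs with rfl | rfl <;> rcases hs' with rfl | rfl <;> linarith
  · rw [af_cp, ← e1, ← a1, (σ i).right_inv hz.1]

theorem exists_fold (D : Dbl pr ht) : ∃ f, Continuous f ∧ Fold pr ht f := by
  have : ∀ x, ∃ y, ∀ k q, 0 ≤ rho q → pr x = B k q → pr y = q ∧
      ∀ s : ℝ, s = 1 ∨ s = -1 → ht x = s * rho (pr x) → ht y = s * sg k * rho q := by
    intro x
    obtain ⟨l, q', hq', e'⟩ := cover (D.nn x)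
    obtain ⟨s', hs', es'⟩ := D.sheet x
    obtain ⟨y, y1, y2⟩ := D.surj q' (s' * sg l * rho q') (by
      rcases hs' with rfl | rfl <;> rcases sg_pm l with h | h <;> simp [h, abs_of_nonneg hq'])
    refine ⟨y, fun k q hq e => ?_⟩
    obtain rfl : q = q' := uniq hq hq' (e.symm.trans e')
    refine ⟨y1, fun s hs es => ?_⟩
    rcases hq.eq_or_lt with h | h
    · rw [y2, ← h, mul_zero, mul_zero]
    obtain rfl : k = l := by
      by_contra c
      exact h.ne' (compat c hq hq (e.symm.trans e')).2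
    rw [y2, mul_right_cancel₀ (e ▸ (B_pos k h).ne') (es'.symm.trans es)]
  choose f hf using this
  refine ⟨f, D.ind.continuous_iff.2 ?_, hf⟩
  have cp := D.cpr
  refine (locallyFinite_of_finite fun t : Fin 7 × Bool => {x | 0 ≤ rho (A t.1 (pr x))} ∩
    {x | ht x = (if t.2 then 1 else -1) * rho (pr x)}).continuous (eq_univ_of_forall fun x => ?_)
    (fun t => (isClosed_le continuous_const (rho_cont.comp ((A_cont _).comp cp))).inter
      (isClosed_eq D.cht (continuous_const.mul (rho_cont.comp cp)))) fun t => ?_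
  · obtain ⟨k, q, hq, e⟩ := cover (D.nn x)
    obtain ⟨s, rfl | rfl, es⟩ := D.sheet x
    · exact mem_iUnion.2 ⟨(k, true), by simpa [e, A_B] using hq, es⟩
    · exact mem_iUnion.2 ⟨(k, false), by simpa [e, A_B] using hq, es⟩
  · refine ContinuousOn.congr (f := fun x => (A t.1 (pr x),
      (if t.2 then 1 else -1) * sg t.1 * rho (A t.1 (pr x))))
      (((A_cont _).comp cp).prodMk
        (continuous_const.mul (rho_cont.comp ((A_cont _).comp cp)))).continuousOn fun x hx => ?_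
    obtain ⟨a, b⟩ := hf x t.1 _ hx.1 (B_A _ _).symm
    exact Prod.ext a (b _ (by cases t.2 <;> simp) hx.2)

end Dbl

end Pool.Agent.P.MP_cb5d8b_an.Mp
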