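import Pool.Agent.P.MP_cb5d8b_an.Mp.Plb

/-! The sphere as the double of a triangle, the seven tiles, and the statement about the map. -/

namespace Pool.Agent.P.MP_cb5d8b_an.Mp

open Set Metric Filter Topology Complex

/-- The height over the triangle with corners `0`, `1`, `I`. -/
noncomputable def rho (q : ℂ) : ℝ := min (1 - q.re - q.im) (min q.re q.im)

theorem le_rho {q : ℂ} {r : ℝ} : r ≤ rho q ↔ r ≤ 1 - q.re - q.im ∧ r ≤ q.re ∧ r ≤ q.im := by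
  simp [rho]

theorem lt_rho {q : ℂ} {r : ℝ} : r < rho q ↔ r < 1 - q.re - q.im ∧ r < q.re ∧ r < q.im := by
  simp [rho]

theorem rho_cont : Continuous rho := by unfold rho; fun_prop

theorem rho_zero {q : ℂ} (h : 0 ≤ rho q) :
    rho q = 0 ↔ 1 - q.re - q.im = 0 ∨ q.re = 0 ∨ q.im = 0 := by
  rw [← not_iff_not, ← ne_eq, ← h.lt_iff_ne', lt_rho]
  obtain ⟨h1, h2, h3⟩ := le_rho.1 h
  rw [h1.lt_iff_ne', h2.lt_iff_ne', h3.lt_iff_ne']
  tauto

/-- Coordinates that present the sphere as the double of the triangle. -/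
structure Dbl (pr : S2 → ℂ) (ht : S2 → ℝ) : Prop where
  cpr : Continuous pr
  cht : Continuous ht
  abs : ∀ x, |ht x| = rho (pr x)
  inj : ∀ x y, pr x = pr y → ht x = ht y → x = y
  surj : ∀ p w, |w| = rho p → ∃ x, pr x = p ∧ ht x = w

/-- The seven tiles as affine data. -/
noncomputable def tile : Fin 7 → Af :=
  ![(⟨1 / 3, 0⟩, ⟨0, 1 / 4⟩, ⟨0, 0⟩), (⟨1 / 3, -1 / 2⟩, ⟨0, -1 / 4⟩, ⟨0, 1 / 2⟩),
    (⟨1 / 3, -1 / 2⟩, ⟨2 / 3, -1 / 2⟩, ⟨0, 1 / 2⟩), (⟨-1 / 2, 1 / 2⟩, ⟨-1 / 3, 0⟩, ⟨1, 0⟩),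
    (⟨1 / 2, 0⟩, ⟨2 / 3, -1 / 2⟩, ⟨0, 1 / 2⟩), (⟨1 / 2, 0⟩, ⟨0, 1 / 4⟩, ⟨0, 1 / 2⟩),
    (⟨1 / 2, -1 / 2⟩, ⟨0, -1 / 4⟩, ⟨0, 1⟩)]

/-- The inverse branches. -/
noncomputable def B (k : Fin 7) (q : ℂ) : ℂ := af (tile k) q

/-- The signs of the tiles. -/
noncomputable def sg : Fin 7 → ℝ := ![1, -1, 1, 1, -1, 1, -1]

theorem B_re (k : Fin 7) (q : ℂ) : (B k q).re = ![q.re / 3, q.re / 3, q.re / 3 + 2 * q.im / 3,
    1 - q.re / 2 - q.im / 3, q.re / 2 + 2 * q.im / 3, q.re / 2, q.re / 2] k := by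
  fin_cases k <;> simp [B, af, li, tile] <;> ring

theorem B_im (k : Fin 7) (q : ℂ) : (B k q).im = ![q.im / 4, 1 / 2 - q.re / 2 - q.im / 4,
    1 / 2 - q.re / 2 - q.im / 2, q.re / 2, 1 / 2 - q.im / 2, 1 / 2 + q.im / 4,
    1 - q.re / 2 - q.im / 4] k := by
  fin_cases k <;> simp [B, af, li, tile] <;> ring

/-- The folding map: the rule on every tile. -/
def Fold (pr : S2 → ℂ) (ht : S2 → ℝ) (f : S2 → S2) : Prop :=
  ∀ x k q, 0 ≤ rho q → pr x = B k q → pr (f x) = q ∧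
    ∀ s : ℝ, s = 1 ∨ s = -1 → ht x = s * rho (pr x) → ht (f x) = s * sg k * rho q

/-- The map block. -/
def S_MAP : Prop := ∃ (pr : S2 → ℂ) (ht : S2 → ℝ) (f : S2 → S2), Dbl pr ht ∧ Fold pr ht f ∧
  (∀ x, ∃ k, pr x = B k (pr (f x))) ∧ IsThurston f ∧ HasDegree f 7 ∧ IsExpanding f ∧
  post f = pr ⁻¹' {0, 1, I} ∧ (post f).ncard = 3 ∧ (∀ y, (f ⁻¹' {y}).Finite) ∧
  IsLocalHomeomorphOn f ((f ⁻¹' post f)ᶜ ∪ post f)

theorem exists_dbl : ∃ pr ht, Dbl pr ht := by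
  obtain ⟨N, hN⟩ : ∃ N : EuclideanSpace ℝ (Fin 3) → ℝ,
      ∀ v, N v = 3 * (|v 2| - min (-v 0 - v 1) (min (v 0) (v 1))) := ⟨_, fun _ => rfl⟩
  have Nc : Continuous N := by rw [funext hN]; fun_prop
  have Np : ∀ v, v ≠ 0 → 0 < N v := fun v hv => by
    by_contra hn
    rw [hN, not_lt] at hn
    have h1 : |v 2| ≤ min (-v 0 - v 1) (min (v 0) (v 1)) := by linarith
    simp only [le_min_iff] at h1
    have h2 := abs_nonneg (v 2)
    refine hv (by
      ext i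
      fin_cases i
      · show v 0 = 0
        linarith [h1.1, h1.2.1, h1.2.2]
      · show v 1 = 0
        linarith [h1.1, h1.2.1, h1.2.2]
      · show v 2 = 0
        exact abs_eq_zero.1 (by linarith [h1.1, h1.2.1, h1.2.2]))
  have Ns : ∀ (t : ℝ) v, 0 < t → N (t • v) = t * N v := fun t v h => by
    simp only [hN, PiLp.smul_apply, smul_eq_mul, abs_mul, abs_of_pos h]
    rw [show -(t * v 0) - t * v 1 = t * (-v 0 - v 1) by ring, ← mul_min_of_nonneg _ _ h.le,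
      ← mul_min_of_nonneg _ _ h.le]
    ring
  have Nx : ∀ x : S2, 0 < N x := fun x => Np x (ne_zero_of_mem_unit_sphere x)
  have rh : ∀ a b : ℝ, rho ⟨1 / 3 + a, 1 / 3 + b⟩ = 1 / 3 + min (-a - b) (min a b) := fun a b => by
    simp only [rho]
    rw [show 1 - (1 / 3 + a) - (1 / 3 + b) = 1 / 3 + (-a - b) by ring, min_add_add_left,
      min_add_add_left]
  refine ⟨fun x => ⟨1 / 3 + x.1 0 / N x, 1 / 3 + x.1 1 / N x⟩, fun x => x.1 2 / N x, ?_, ?_,
    fun x => ?_, fun x y e1 e2 => ?_, fun p w h => ?_⟩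
  · simp only [Complex.mk_eq_add_mul_I]
    have : ∀ i, Continuous fun x : S2 => x.1 i / N x := fun i =>
      Continuous.div (by fun_prop) (by fun_prop) fun x => (Nx x).ne'
    have h0 := this 0
    have h1 := this 1
    fun_prop
  · exact Continuous.div (by fun_prop) (by fun_prop) fun x => (Nx x).ne'
  · have h := Nx x
    rw [rh, abs_div, abs_of_pos h, ← neg_div, ← sub_div, min_div_div_right h.le,
      min_div_div_right h.le]
    field_simp
    rw [hN]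
    ring
  · have e : (N x)⁻¹ • x.1 = (N y)⁻¹ • y.1 := by
      simp only [Complex.mk.injEq, add_right_inj] at e1
      ext i
      fin_cases i <;> simp only [PiLp.smul_apply, smul_eq_mul, ← div_eq_inv_mul]
      exacts [e1.1, e1.2, e2]
    have e3 := congrArg norm e
    rw [norm_smul, norm_smul, norm_eq_of_mem_sphere, norm_eq_of_mem_sphere, mul_one, mul_one,
      Real.norm_of_nonneg (inv_pos.2 (Nx x)).le, Real.norm_of_nonneg (inv_pos.2 (Nx y)).le] at e3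
    rw [e3] at e
    exact Subtype.ext (smul_right_injective _ (inv_pos.2 (Nx y)).ne' e)
  · obtain ⟨v, hv⟩ : ∃ v : EuclideanSpace ℝ (Fin 3), v = !₂[p.re - 1 / 3, p.im - 1 / 3, w] :=
      ⟨_, rfl⟩
    have v0 : v 0 = p.re - 1 / 3 := by simp [hv]
    have v1 : v 1 = p.im - 1 / 3 := by simp [hv]
    have v2 : v 2 = w := by simp [hv]
    have n1 : N v = 1 := by
      have := rh (v 0) (v 1)
      rw [show (⟨1 / 3 + v 0, 1 / 3 + v 1⟩ : ℂ) = p from
        Complex.ext (by simp [v0]) (by simp [v1])] at this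
      rw [hN, v2, h, this]
      ring
    have vn : v ≠ 0 := fun e => by
      rw [e, hN] at n1
      simp at n1
    have np : 0 < ‖v‖⁻¹ := inv_pos.2 (norm_pos_iff.2 vn)
    have k : ∀ i, (‖v‖⁻¹ • v) i / N (‖v‖⁻¹ • v) = v i := fun i => by
      rw [Ns _ _ np, n1, mul_one, PiLp.smul_apply, smul_eq_mul, mul_div_cancel_left₀ _ np.ne']
    refine ⟨⟨‖v‖⁻¹ • v, by simp [norm_smul, inv_mul_cancel₀ (norm_ne_zero_iff.2 vn)]⟩, ?_, ?_⟩
    · exact Complex.ext (by simp only [k, v0]; ring) (by simp only [k, v1]; ring)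
    · simp only [k, v2]

end Pool.Agent.P.MP_cb5d8b_an.Mp
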