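import Pool.Agent.P.MP_cb5d8b_an.Mp.Chs

/-! The folding map is an expanding Thurston map of degree seven. -/

namespace Pool.Agent.P.MP_cb5d8b_an.Mp

open Set Metric Filter Topology Complex

variable {pr : S2 → ℂ} {ht : S2 → ℝ} {f : S2 → S2}

theorem rho_corner {p : ℂ} (h : p ∈ ({0, 1, I} : Set ℂ)) : rho p = 0 := by
  rcases h with rfl | rfl | rfl <;> simp [rho]

theorem tile_of (D : Dbl pr ht) (F : Fold pr ht f) (x : S2) : ∃ k, pr x = B k (pr (f x)) := by
  obtain ⟨k, q, hq, e⟩ := cover (D.nn x)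
  exact ⟨k, by rw [(F x k q hq e).1, e]⟩

theorem pre (D : Dbl pr ht) (F : Fold pr ht f) (k : Fin 7) (y : S2) :
    ∃ x, pr x = B k (pr y) ∧ f x = y := by
  obtain ⟨s, hs, e⟩ := D.sheet y
  have hs' : s * sg k = 1 ∨ s * sg k = -1 := by
    rcases hs with rfl | rfl <;> rcases sg_pm k with h | h <;> simp [h]
  obtain ⟨g, -, hg⟩ := D.sec hs'
  obtain ⟨g1, g2⟩ := hg _ (B_mem k (D.nn y))
  obtain ⟨a, b⟩ := F _ k _ (D.nn y) g1
  refine ⟨_, g1, D.inj _ _ a ?_⟩
  rw [b _ hs' (by rw [g2, g1]), e]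
  rcases sg_pm k with h | h <;> simp [h]

theorem fibre (D : Dbl pr ht) (F : Fold pr ht f) (y : S2) : (f ⁻¹' {y}).Finite :=
  (finite_iUnion fun k => D.fin (B k (pr y))).subset fun x hx => by
    obtain rfl : f x = y := hx
    exact mem_iUnion.2 (tile_of D F x)

theorem eq0 (D : Dbl pr ht) (F : Fold pr ht f) {x : S2} (h : ht x = 0) : ht (f x) = 0 := by
  obtain ⟨k, e⟩ := tile_of D F x
  by_contra c
  have := B_pos k (D.abs (f x) ▸ abs_pos.2 c)
  rw [← e, ← D.abs, h, abs_zero] at this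
  exact this.false

theorem locInj (D : Dbl pr ht) (F : Fold pr ht f) (hc : Continuous f) {x : S2}
    (hx : NC (pr (f x)) ∨ pr x ∈ ({0, 1, I} : Set ℂ)) : ∃ W ∈ 𝓝 x, InjOn f W := by
  have e1 : ∀ᶠ y in 𝓝 x, ∀ k, 0 ≤ rho (A k (pr y)) → 0 ≤ rho (A k (pr x)) := by
    rw [eventually_all]
    intro k
    by_cases h : 0 ≤ rho (A k (pr x))
    · exact Eventually.of_forall fun _ _ => h
    · filter_upwards [(rho_cont.comp ((A_cont k).comp D.cpr)).continuousAt.eventually_lt
        continuousAt_const (not_le.1 h)] with y h1 h2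
      exact absurd h2 (not_le.2 h1)
  have e2 : ∀ᶠ y in 𝓝 x, ∀ j, bc (pr (f y)) j = 0 → bc (pr (f x)) j = 0 := by
    rw [eventually_all]
    intro j
    by_cases h : bc (pr (f x)) j = 0
    · exact Eventually.of_forall fun _ _ => h
    · filter_upwards [((bc_cont j).comp (D.cpr.comp hc)).continuousAt.eventually_ne h] with y h1 h2
      exact absurd h2 h1
  have e3 : ∀ᶠ y in 𝓝 x, ht x ≠ 0 → 0 < ht x * ht y := by
    by_cases h : ht x = 0
    · exact Eventually.of_forall fun _ c => absurd h c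
    · filter_upwards [continuousAt_const.eventually_lt
        (continuous_const.mul D.cht : Continuous fun y => ht x * ht y).continuousAt
        (mul_self_pos.2 h)] with y h1 _
      exact h1
  refine ⟨_, e1.and (e2.and e3), fun y hy z hz e => ?_⟩
  obtain ⟨k, ek⟩ := tile_of D F y
  obtain ⟨l, el⟩ := tile_of D F z
  rw [← e] at el
  have hq := D.nn (f y)
  have tr : ∀ m, 0 ≤ rho (A m (pr x)) → pr x = B m (pr (f x)) := fun m hm => by
    rw [(F x m _ hm (B_A _ _).symm).1, B_A]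
  have xk := tr k (hy.1 k (by rwa [ek, A_B]))
  have xl := tr l (hz.1 l (by rwa [el, A_B]))
  obtain ⟨s, hs, es⟩ := D.sheet y
  obtain ⟨s', hs', es'⟩ := D.sheet z
  have a1 := (F y k _ hq ek).2 s hs es
  have a2 := (F z l _ hq el).2 s' hs' es'
  rw [← e, a1] at a2
  by_cases hkl : k = l
  · subst hkl
    have ep : pr y = pr z := ek.trans el.symm
    by_cases h0 : ht x = 0
    · rcases hq.eq_or_lt with h | h
      · obtain ⟨j, hj⟩ := (rho_bc hq).1 h.symm
        refine D.ext0 ep ?_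
        rw [ek]
        exact bd (D.nn (f x)) (by rw [← xk, ← D.abs, h0, abs_zero]) (xk ▸ hx) (hy.2.1 j hj) hj hq
      · have sg0 : sg k ≠ 0 := by rcases sg_pm k with c | c <;> simp [c]
        obtain rfl : s = s' := mul_right_cancel₀ sg0 (mul_right_cancel₀ h.ne' a2)
        exact D.inj _ _ ep (by rw [es, es', ep])
    · exact D.ext1 ep (hy.2.2 h0) (hz.2.2 h0)
  · have nc : NC (pr (f x)) := hx.resolve_right
      (xk ▸ corner_uniq hkl (D.nn (f x)) (xk.symm.trans xl))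
    obtain ⟨b1, b2, b3⟩ := edge hkl (D.nn (f x)) nc (xk.symm.trans xl)
    have h0 : ht x ≠ 0 := fun c => by
      rw [← xk, ← D.abs, c, abs_zero] at b2
      exact b2.false
    have c1 := hy.2.2 h0
    have c2 := hz.2.2 h0
    have r0 : rho (pr (f y)) = 0 := by
      have n1 := D.nn y
      have n2 := D.nn z
      rw [es] at c1
      rw [es'] at c2
      rw [b1] at a2
      rcases hs with rfl | rfl <;> rcases hs' with rfl | rfl <;> rcases sg_pm l with c | c <;>
        rw [c] at a2 <;>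
        first
        | linarith
        | (exfalso; nlinarith [mul_pos c1 c2, mul_nonneg n1 n2, mul_self_nonneg (ht x)])
    obtain ⟨j, hj⟩ := (rho_bc hq).1 r0
    exact D.ext1 (by rw [ek, el, b3 j (hy.2.1 j hj) _ hj]) c1 c2

theorem approach {q : ℂ} (hq : 0 ≤ rho q) : ∃ c : ℝ → ℂ,
    Tendsto c (𝓝[>] 0) (𝓝 q) ∧ ∀ᶠ t in 𝓝[>] 0, 0 < rho (c t) := by
  refine ⟨fun t => q + t * (⟨1 / 3, 1 / 3⟩ - q), tendsto_nhdsWithin_of_tendsto_nhds ?_, ?_⟩
  · have : Continuous fun t : ℝ => q + t * (⟨1 / 3, 1 / 3⟩ - q) := by fun_prop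
    simpa using this.tendsto 0
  · filter_upwards [Ioo_mem_nhdsGT one_pos] with t h
    obtain ⟨h1, h2, h3⟩ := le_rho.1 hq
    have h4 := sub_pos.2 h.2
    rw [lt_rho]
    simp only [add_re, add_im, re_ofReal_mul, im_ofReal_mul, sub_re, sub_im]
    refine ⟨?_, ?_, ?_⟩ <;>
      nlinarith [mul_nonneg h1 h4.le, mul_nonneg h2 h4.le, mul_nonneg h3 h4.le, h.1]

theorem sec_tendsto {g : ℂ → S2} (gc : ContinuousOn g {p | 0 ≤ rho p}) {c : ℝ → ℂ} {q : ℂ}
    (hq : 0 ≤ rho q) (h1 : Tendsto c (𝓝[>] 0) (𝓝 q)) (h2 : ∀ᶠ t in 𝓝[>] 0, 0 < rho (c t)) :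
    Tendsto (fun t => g (c t)) (𝓝[>] 0) (𝓝 (g q)) :=
  (gc q hq).tendsto.comp (tendsto_nhdsWithin_iff.2 ⟨h1, h2.mono fun _ h => h.le⟩)

theorem critical (D : Dbl pr ht) (F : Fold pr ht f) {k l : Fin 7} (hkl : k ≠ l)
    (hs : sg k = sg l) {y : S2} (e : B k (pr y) = B l (pr y)) : y ∈ f '' crit f := by
  have hq := D.nn y
  have r0 := (compat hkl hq hq e).2
  obtain ⟨g, gc, hg⟩ := D.sec (Or.inl rfl)
  refine ⟨g (B k (pr y)), fun h => ?_,
    (D.ext0 (F _ k _ hq (hg _ (B_mem k hq)).1).1.symm r0).symm⟩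
  obtain ⟨φ, h1, h2⟩ := h _ rfl
  obtain ⟨c, c1, c2⟩ := approach hq
  have t : ∀ m, Tendsto (fun t => g (B m (c t))) (𝓝[>] 0) (𝓝 (g (B m (pr y)))) := fun m =>
    sec_tendsto gc (B_mem m hq) (((B_cont m).tendsto _).comp c1) (c2.mono fun _ h => B_pos m h)
  have v : ∀ m q, 0 ≤ rho q → pr (f (g (B m q))) = q ∧ ht (f (g (B m q))) = sg m * rho q :=
    fun m q h => by
      obtain ⟨g1, g2⟩ := hg _ (B_mem m h)
      obtain ⟨a, b⟩ := F _ m q h g1
      exact ⟨a, by rw [b 1 (Or.inl rfl) (by rw [g1, g2]), one_mul]⟩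
  obtain ⟨s, s1, s2, s3⟩ := (c2.and (((t k).eventually (φ.open_source.mem_nhds h1)).and
    ((t l).eventually (φ.open_source.mem_nhds (e ▸ h1))))).exists
  have e1 : g (B k (c s)) = g (B l (c s)) := φ.injOn s2 s3 (h2 ▸ D.inj _ _
    (by rw [(v k _ s1.le).1, (v l _ s1.le).1]) (by rw [(v k _ s1.le).2, (v l _ s1.le).2, hs]))
  have e2 := congrArg pr e1
  rw [(hg _ (B_mem k s1.le)).1, (hg _ (B_mem l s1.le)).1] at e2
  exact s1.ne' (compat hkl s1.le s1.le e2).2

theorem seven_pre (D : Dbl pr ht) (F : Fold pr ht f) {y : S2} (hy : 0 < rho (pr y)) :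
    (f ⁻¹' {y}).ncard = 7 := by
  choose x h1 h2 using fun k => pre D F k y
  have hi : Function.Injective x := fun k l e => by
    by_contra c
    exact hy.ne' (compat c hy.le hy.le ((h1 k).symm.trans (e ▸ h1 l))).2
  have : f ⁻¹' {y} = range x := by
    refine subset_antisymm (fun z hz => ?_) (range_subset_iff.2 h2)
    obtain rfl : f z = y := hz
    obtain ⟨k, e⟩ := tile_of D F z
    obtain ⟨s, hs, es⟩ := D.sheet z
    obtain ⟨s', hs', es'⟩ := D.sheet (x k)
    have a1 := (F z k _ hy.le e).2 s hs es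
    have a2 := (F _ k _ hy.le (h1 k)).2 s' hs' es'
    rw [h2, a1] at a2
    have sg0 : sg k ≠ 0 := by rcases sg_pm k with c | c <;> simp [c]
    obtain rfl : s = s' := mul_right_cancel₀ sg0 (mul_right_cancel₀ hy.ne' a2)
    exact ⟨k, D.inj _ _ ((h1 k).trans e.symm) (by rw [es, es', h1 k, e])⟩
  rw [this, ncard_range_of_injective hi]
  simp

theorem jordan (D : Dbl pr ht) : IsJordanCurve {x | ht x = 0} := by
  obtain ⟨n, hn⟩ : ∃ n : ℂ → ℝ, ∀ v, n v = -3 * min (-v.re - v.im) (min v.re v.im) :=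
    ⟨_, fun _ => rfl⟩
  have nc : Continuous n := by rw [funext hn]; fun_prop
  have np : ∀ v, v ≠ 0 → 0 < n v := fun v hv => by
    by_contra c
    rw [hn, not_lt] at c
    have h1 : 0 ≤ min (-v.re - v.im) (min v.re v.im) := by linarith
    simp only [le_min_iff] at h1
    exact hv (Complex.ext (by simp only [zero_re]; linarith [h1.1, h1.2.1, h1.2.2])
      (by simp only [zero_im]; linarith [h1.1, h1.2.1, h1.2.2]))
  have ns : ∀ (t : ℝ) v, 0 < t → n (t * v) = t * n v := fun t v h => by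
    simp only [hn, re_ofReal_mul, im_ofReal_mul]
    rw [show -(t * v.re) - t * v.im = t * (-v.re - v.im) by ring, ← mul_min_of_nonneg _ _ h.le,
      ← mul_min_of_nonneg _ _ h.le]
    ring
  have rh : ∀ v, rho (⟨1 / 3, 1 / 3⟩ + v) = 1 / 3 - n v / 3 := fun v => by
    simp only [rho, add_re, add_im, hn]
    rw [show 1 - (1 / 3 + v.re) - (1 / 3 + v.im) = 1 / 3 + (-v.re - v.im) by ring,
      min_add_add_left, min_add_add_left]
    ring
  have nz : ∀ z : Circle, 0 < (n z)⁻¹ := fun z => inv_pos.2 (np z z.coe_ne_zero)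
  obtain ⟨g, gc, hg⟩ := D.lift (K := univ)
    (P := fun z : Circle => (⟨1 / 3, 1 / 3⟩ : ℂ) + ((n z)⁻¹ : ℝ) * (z : ℂ)) (W := fun _ => 0)
    (by
      have : Continuous fun z : Circle => (n z)⁻¹ :=
        Continuous.inv₀ (by fun_prop) fun z => (np z z.coe_ne_zero).ne'
      fun_prop) continuousOn_const fun z _ => by
      rw [rh, ns _ _ (nz z), inv_mul_cancel₀ (np z z.coe_ne_zero).ne', sub_self, abs_zero]
  refine ⟨g, continuousOn_univ.1 gc, fun z w e => ?_,
    subset_antisymm (range_subset_iff.2 fun z => (hg z trivial).2) fun x hx => ?_⟩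
  · have e1 := congrArg pr e
    rw [(hg z trivial).1, (hg w trivial).1, add_right_inj] at e1
    have e2 := congrArg norm e1
    rw [norm_mul, norm_mul, z.norm_coe, w.norm_coe, mul_one, mul_one, norm_real, norm_real,
      Real.norm_of_nonneg (nz z).le, Real.norm_of_nonneg (nz w).le] at e2
    rw [e2] at e1
    exact Circle.ext (mul_left_cancel₀ (by exact_mod_cast (nz w).ne') e1)
  · obtain ⟨v, hv⟩ : ∃ v, pr x = ⟨1 / 3, 1 / 3⟩ + v := ⟨_, (add_sub_cancel _ _).symm⟩
    have r0 : rho (pr x) = 0 := by rw [← D.abs, show ht x = 0 from hx, abs_zero]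
    have n1 : n v = 1 := by
      rw [hv, rh] at r0
      linarith
    have v0 : v ≠ 0 := fun e => by simp [e, hn] at n1
    have p0 : 0 < ‖v‖⁻¹ := inv_pos.2 (norm_pos_iff.2 v0)
    obtain ⟨z, hz⟩ : ∃ z : Circle, (z : ℂ) = ((‖v‖⁻¹ : ℝ) : ℂ) * v :=
      ⟨⟨((‖v‖⁻¹ : ℝ) : ℂ) * v, by simp [Submonoid.unitSphere, v0]⟩, rfl⟩
    refine ⟨z, (D.ext0 (x := x) ?_ r0).symm⟩
    rw [(hg _ trivial).1, hv, hz, ns _ _ p0, n1, mul_one, ← mul_assoc, ← ofReal_mul, inv_mul_cancel₀ p0.ne', ofReal_one,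
      one_mul]

theorem eq0_iter (D : Dbl pr ht) (F : Fold pr ht f) (n : ℕ) {x : S2} (h : ht x = 0) :
    ht (f^[n] x) = 0 := by
  induction n with
  | zero => exact h
  | succ n ih => rw [Function.iterate_succ_apply']; exact eq0 D F ih

theorem small (D : Dbl pr ht) (F : Fold pr ht f) (hc : Continuous f) (n : ℕ) :
    ∀ K : Set S2, IsPreconnected K → (∀ y ∈ K, ht (f^[n] y) ≠ 0) →
      ∀ y ∈ K, ∀ z ∈ K, Near (pr y - pr z) ((2 / 3) ^ n) := by
  induction n with
  | zero => exact fun K _ _ y _ z _ => by simpa using near_one (D.nn y) (D.nn z)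
  | succ n ih =>
    intro K hK h y hy z hz
    have a := ih (f '' K) (hK.image f hc.continuousOn) (by rintro _ ⟨w, hw, rfl⟩; exact h w hw)
      _ ⟨y, hy, rfl⟩ _ ⟨z, hz, rfl⟩
    have op : ∀ k, IsOpen {w | 0 < rho (A k (pr w))} := fun k =>
      isOpen_lt continuous_const (rho_cont.comp ((A_cont k).comp D.cpr))
    have cv : ∀ w ∈ K, ∃ k, 0 < rho (A k (pr w)) := fun w hw => by
      obtain ⟨k, e⟩ := tile_of D F w
      refine ⟨k, ?_⟩
      rw [e, A_B, ← D.abs]
      exact abs_pos.2 fun c => h w hw (eq0_iter D F n c)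
    obtain ⟨k, hk⟩ := cv y hy
    have sub : K ⊆ {w | 0 < rho (A k (pr w))} := by
      refine hK.subset_left_of_subset_union (op k)
        (isOpen_biUnion (s := {k}ᶜ) fun l _ => op l) ?_ (fun w hw => ?_) ⟨y, hy, hk⟩
      · rw [disjoint_left]
        intro w h1 h2
        obtain ⟨l, hl, h3⟩ := mem_iUnion₂.1 h2
        exact (ne_of_gt h3) (compat hl (le_of_lt h3) (le_of_lt h1) (by rw [B_A, B_A])).2
      · obtain ⟨l, hl⟩ := cv w hw
        by_cases c : l = k
        · exact Or.inl (c ▸ hl)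
        · exact Or.inr (mem_iUnion₂.2 ⟨l, c, hl⟩)
    have e : ∀ w ∈ K, pr w = B k (pr (f w)) := fun w hw => by
      rw [(F w k _ (le_of_lt (sub hw)) (B_A _ _).symm).1, B_A]
    rw [e y hy, e z hz, pow_succ']
    exact near_B k a

theorem expand (D : Dbl pr ht) (F : Fold pr ht f) (hc : Continuous f) {ε : ℝ} (hε : 0 < ε) :
    ∀ᶠ n : ℕ in atTop, ∀ x, diam (connectedComponentIn (f^[n] ⁻¹' {x | ht x = 0})ᶜ x) ≤ ε := by
  have cpt : IsCompact {p | 0 ≤ rho p} := by
    refine (isCompact_range D.cpr).of_isClosed_subset (isClosed_le continuous_const rho_cont)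
      fun p hp => ?_
    obtain ⟨x, hx, -⟩ := D.surj p (rho p) (abs_of_nonneg hp)
    exact ⟨x, hx⟩
  have key : ∀ s : ℝ, s = 1 ∨ s = -1 → ∃ δ > 0, ∀ y z, ht y = s * rho (pr y) →
      ht z = s * rho (pr z) → dist (pr y) (pr z) < δ → dist y z < ε := fun s hs => by
    obtain ⟨g, gc, hg⟩ := D.sec hs
    obtain ⟨δ, hδ, h⟩ := Metric.uniformContinuousOn_iff.1
      (cpt.uniformContinuousOn_of_continuous gc) ε hε
    have e : ∀ y, ht y = s * rho (pr y) → g (pr y) = y := fun y hy =>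
      D.inj _ _ (hg _ (D.nn y)).1 ((hg _ (D.nn y)).2.trans hy.symm)
    refine ⟨δ, hδ, fun y z hy hz hd => ?_⟩
    have := h _ (D.nn y) _ (D.nn z) hd
    rwa [e y hy, e z hz] at this
  obtain ⟨δ, hδ, h1⟩ := key 1 (Or.inl rfl)
  obtain ⟨δ', hδ', h2⟩ := key (-1) (Or.inr rfl)
  filter_upwards [(tendsto_pow_atTop_nhds_zero_of_lt_one (r := (2 / 3 : ℝ)) (by norm_num)
    (by norm_num)).eventually (gt_mem_nhds (half_pos (lt_min hδ hδ')))] with n hn x
  have hK := isPreconnected_connectedComponentIn (x := x) (F := (f^[n] ⁻¹' {x | ht x = 0})ᶜ)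
  have hs : ∀ y ∈ connectedComponentIn (f^[n] ⁻¹' {x | ht x = 0})ᶜ x, ht (f^[n] y) ≠ 0 :=
    fun y hy => connectedComponentIn_subset _ _ hy
  generalize connectedComponentIn (f^[n] ⁻¹' {x | ht x = 0})ᶜ x = K at hK hs
  refine diam_le_of_forall_dist_le hε.le fun y hy z hz => le_of_lt ?_
  obtain ⟨a, b, -⟩ := small D F hc n K hK hs y hy z hz
  have hd : dist (pr y) (pr z) < min δ δ' := by
    rw [dist_eq_norm]
    linarith [norm_le_abs_re_add_abs_im (pr y - pr z)]
  have h0 : ∀ w ∈ K, ht w ≠ 0 := fun w hw c => hs w hw (eq0_iter D F n c)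
  have iv : ∀ u ∈ K, ∀ w ∈ K, ht u ≤ 0 → 0 ≤ ht w → False := fun u hu w hw c1 c2 => by
    obtain ⟨t, t1, t2⟩ := hK.intermediate_value hu hw D.cht.continuousOn ⟨c1, c2⟩
    exact h0 t t1 t2
  rcases le_total 0 (ht y) with c | c
  · have c' : 0 ≤ ht z := le_of_not_ge fun c' => iv z hz y hy c' c
    exact h1 y z (by rw [← D.abs, abs_of_nonneg c, one_mul])
      (by rw [← D.abs, abs_of_nonneg c', one_mul]) (hd.trans_le (min_le_left _ _))
  · have c' : ht z ≤ 0 := le_of_not_ge fun c' => iv y hy z hz c c'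
    exact h2 y z (by rw [← D.abs, abs_of_nonpos c]; ring)
      (by rw [← D.abs, abs_of_nonpos c']; ring) (hd.trans_le (min_le_right _ _))

theorem p_MAP : S_MAP := by
  obtain ⟨pr, ht, D⟩ := exists_dbl
  obtain ⟨f, hc, F⟩ := D.exists_fold
  obtain ⟨σ, cov, pl⟩ := D.pl
  have p1 : PL σ id := pl id continuous_id {(1, I, 0)} (finite_singleton _) fun x => by
    obtain ⟨s, hs, e⟩ := D.sheet x
    refine ⟨_, rfl, s, s, hs, hs, by simp [af, li], e, e, ?_⟩
    rcases hs with rfl | rfl <;> simp [dt]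
  have p2 : PL σ f := pl f hc (range tile) (finite_range _) fun x => by
    obtain ⟨s, hs, e⟩ := D.sheet x
    obtain ⟨k, ek⟩ := tile_of D F x
    have := sg_dt k
    refine ⟨_, ⟨k, rfl⟩, s, s * sg k, hs, ?_, ek, e, (F x k _ (D.nn _) ek).2 s hs e, ?_⟩
    · rcases hs with rfl | rfl <;> rcases sg_pm k with h | h <;> simp [h]
    · rcases hs with rfl | rfl <;> linarith
  have lh : ∀ x, pr (f x) ∉ ({0, 1, I} : Set ℂ) ∨ pr x ∈ ({0, 1, I} : Set ℂ) →
      IsLocalHomeomorphOn f {x} := fun x hx => by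
    obtain ⟨W, hW, hi⟩ := locInj D F hc (hx.imp_left (nc_of (D.nn _)))
    exact p2.locHomeo hc cov hW hi
  have c1 : f '' crit f = pr ⁻¹' {0, 1, I} := by
    refine subset_antisymm ?_ fun y hy => ?_
    · rintro _ ⟨x, hx, rfl⟩
      by_contra c
      exact hx (lh x (Or.inl c))
    · rcases hy with h | h | h
      · refine critical D F (k := 1) (l := 4) (by decide) (by simp [sg]) ?_
        rw [h]
        apply Complex.ext <;> simp [B_re, B_im]
      · refine critical D F (k := 0) (l := 2) (by decide) (by simp [sg]) ?_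
        rw [h]
        apply Complex.ext <;> simp [B_re, B_im]
      · refine critical D F (k := 2) (l := 3) (by decide) (by simp [sg]) ?_
        rw [show pr y = I from h]
        apply Complex.ext <;> simp [B_re, B_im]
        norm_num
  have c2 : MapsTo f (pr ⁻¹' {0, 1, I}) (pr ⁻¹' {0, 1, I}) := fun x hx => by
    have r : 0 ≤ rho 0 := by simp [rho]
    refine Or.inl ?_
    rcases hx with h | h | h
    · exact (F x 0 0 r (h.trans (by apply Complex.ext <;> simp [B_re, B_im]))).1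
    · exact (F x 3 0 r (h.trans (by apply Complex.ext <;> simp [B_re, B_im]))).1
    · exact (F x 6 0 r ((show pr x = I from h).trans
        (by apply Complex.ext <;> simp [B_re, B_im]))).1
  have c3 : post f = pr ⁻¹' {0, 1, I} := by
    refine subset_antisymm (iUnion₂_subset fun n hn => ?_)
      (subset_iUnion₂_of_subset 1 le_rfl (by rw [Function.iterate_one, c1]))
    obtain ⟨n, rfl⟩ : ∃ m, n = m + 1 := ⟨n - 1, by omega⟩
    rw [Function.iterate_succ, image_comp, c1]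
    exact (c2.iterate n).image_subset
  have c4 : (pr ⁻¹' {0, 1, I}).ncard = 3 := by
    rw [← InjOn.ncard_image (f := pr) (s := pr ⁻¹' {0, 1, I})
      fun x hx y _ e => D.ext0 e (rho_corner hx),
      image_preimage_eq_of_subset fun p hp => by
        obtain ⟨x, hx, -⟩ := D.surj p 0 (by rw [rho_corner hp, abs_zero])
        exact ⟨x, hx⟩]
    exact ncard_eq_three.2 ⟨0, 1, I, zero_ne_one, I_ne_zero.symm,
      fun e => by simpa using congrArg re e, rfl⟩
  have dg : HasDegree f 7 := fun y hy => by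
    rw [c1] at hy
    obtain ⟨dI, U, hU, ho, ho', H, hH⟩ := IsEvenlyCovered.of_openPartialHomeomorph (x := y) hc
      fun x hx => by
        obtain ⟨φ, a, b⟩ := lh x (Or.inl (by rwa [show f x = y from hx])) x rfl
        exact ⟨φ, a, b.symm⟩
    obtain ⟨s, hs, e⟩ := D.sheet y
    obtain ⟨g, gc, hg⟩ := D.sec hs
    obtain ⟨c, t1, t2⟩ := approach (D.nn y)
    have t3 := sec_tendsto gc (D.nn y) t1 t2
    rw [show g (pr y) = y from D.inj _ _ (hg _ (D.nn y)).1 ((hg _ (D.nn y)).2.trans e.symm)] at t3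
    obtain ⟨t, a1, a2⟩ := (t2.and (t3.eventually (ho.mem_nhds hU))).exists
    rw [← seven_pre D F (y := g (c t)) (by rwa [(hg _ a1.le).1])]
    exact ncard_congr' (IsEvenlyCovered.fiberHomeomorph (f := f) (x := g (c t))
      ⟨dI, U, a2, ho, ho', H, hH⟩).toEquiv
  refine ⟨pr, ht, f, D, F, tile_of D F,
    ⟨p2.branched p1 cov hc fun y => (pre D F 0 y).imp fun _ h => h.2, ⟨7, by norm_num, dg⟩,
      finite_of_ncard_ne_zero (by rw [c3, c4]; norm_num)⟩, dg,
    ⟨_, jordan D, fun x hx => ?_, fun ε hε => expand D F hc hε⟩, c3, c3 ▸ c4, fibre D F,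
    fun x hx => lh x (by rwa [c3] at hx) x rfl⟩
  rw [c3] at hx
  exact abs_eq_zero.1 ((D.abs x).trans (rho_corner hx))

end Pool.Agent.P.MP_cb5d8b_an.Mp
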