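import Pool.Agent.P.MP_cb5d8b_an.Mp.Sel

/-! Piecewise linear maps of positive determinant are branched coverings. -/

namespace Pool.Agent.P.MP_cb5d8b_an.Mp

open Set Metric Filter Topology Complex

/-- `h` keeps the orientation at `x`. -/
def Pos (h : ℂ → ℂ) (x : ℂ) : Prop :=
  ∃ U ∈ 𝓝 x, ∃ L : ℂ → ℂ, ContinuousOn L (U \ {x}) ∧
    ∀ y ∈ U \ {x}, h y - h x = exp (L y) * (y - x)

/-- A continuous selection of finitely many affine maps of positive determinant. -/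
def Aff (G : ℂ → ℂ) (U : Set ℂ) : Prop :=
  IsOpen U ∧ ContinuousOn G U ∧ ∃ S : Set (Af × Af), S.Finite ∧ (∀ m ∈ S, 0 < dt m.1 * dt m.2) ∧
    ∀ z ∈ U, ∃ m ∈ S, ∃ p, z = af m.1 p ∧ G z = af m.2 p

theorem Aff.loc {G : ℂ → ℂ} {U : Set ℂ} (h : Aff G U) {z₀ : ℂ} (hz : z₀ ∈ U) :
    ∃ d : ℕ, 1 ≤ d ∧ ∃ Φ : ℂ ≃ₜ ℂ, Φ z₀ = 0 ∧ Pos Φ z₀ ∧
      ∀ᶠ z in 𝓝 z₀, G z - G z₀ = Φ z ^ d := by
  obtain ⟨ho, hc, S, hS, hd, hs⟩ := h
  have d1 : ∀ m ∈ S, dt m.1 ≠ 0 := fun m hm e => by simpa [e] using hd m hm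
  have hG : ContinuousAt G z₀ := hc.continuousAt (ho.mem_nhds hz)
  have ev : ∀ᶠ z in 𝓝 z₀, ∀ m ∈ S, G z = af (cp m.2 (iv m.1)) z →
      G z₀ = af (cp m.2 (iv m.1)) z₀ := by
    rw [eventually_all_finite hS]
    intro m _
    by_cases e : G z₀ = af (cp m.2 (iv m.1)) z₀
    · exact Eventually.of_forall fun _ _ => e
    · filter_upwards [(hG.sub (af_cont _).continuousAt).eventually_ne (sub_ne_zero.2 e)] with z h1 h2
      exact absurd (sub_eq_zero.2 h2) h1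
  obtain ⟨r, hr, hb⟩ := nhds_basis_closedBall.mem_iff.1 (ev.and (ho.mem_nhds hz))
  have mem : ∀ v ∈ closedBall (0 : ℂ) r, z₀ + v ∈ closedBall z₀ r := fun v hv => by
    simpa using hv
  obtain ⟨d, d0, Φ, ⟨L, hL, eL⟩, e⟩ := cone (H := fun v => G (z₀ + v) - G z₀)
    (hS.image fun m => cp m.2 (iv m.1))
    (by
      rintro _ ⟨m, hm, rfl⟩
      rw [dt_cp, dt_iv (d1 m hm)]
      have := div_pos (hd m hm) (mul_self_pos.2 (d1 m hm))
      rwa [mul_div_mul_left _ _ (d1 m hm), div_eq_mul_one_div] at this) hr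
    ((hc.comp (by fun_prop) fun v hv => (hb (mem v hv)).2).sub continuousOn_const)
    fun v hv => by
      obtain ⟨m, hm, p, e1, e2⟩ := hs _ (hb (mem v hv)).2
      have e3 : G (z₀ + v) = af (cp m.2 (iv m.1)) (z₀ + v) := by
        rw [e2, af_cp, e1, iv_af (d1 m hm)]
      refine ⟨_, ⟨m, hm, rfl⟩, ?_⟩
      beta_reduce
      rw [(hb (mem v hv)).1 m hm e3, e3, af_sub, add_sub_cancel_left]
  refine ⟨d, d0, (Homeomorph.subRight z₀).trans Φ, by simp [eL], ⟨univ, univ_mem,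
    fun y => L (y - z₀), hL.comp (by fun_prop) fun y hy => sub_ne_zero.2 hy.2, fun y _ => ?_⟩, ?_⟩
  · simp [eL]
  · filter_upwards [closedBall_mem_nhds z₀ hr] with z hz
    simpa using e (z - z₀) (by simpa [dist_eq_norm] using hz)

theorem Aff.one {G : ℂ → ℂ} {U : Set ℂ} (h : Aff G U) {z₀ : ℂ} (hz : z₀ ∈ U) {W : Set ℂ}
    (hW : W ∈ 𝓝 z₀) (hi : InjOn G W) :
    Pos G z₀ ∧ ∃ Φ : ℂ ≃ₜ ℂ, ∀ᶠ z in 𝓝 z₀, G z = Φ z := by
  obtain ⟨d, d0, Φ, h0, ⟨V, hV, L, hL, eL⟩, ev⟩ := h.loc hz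
  obtain rfl : d = 1 := by
    by_contra d1
    have hζ := Complex.isPrimitiveRoot_exp d (by omega)
    generalize exp (2 * Real.pi * I / d) = ζ at hζ
    have t1 : Tendsto Φ.symm (𝓝 0) (𝓝 z₀) := by
      have := Φ.symm.continuous.tendsto 0
      rwa [← h0, Φ.symm_apply_apply, h0] at this
    have t2 : Tendsto (fun v => Φ.symm (ζ * v)) (𝓝 0) (𝓝 z₀) :=
      t1.comp (by simpa using (continuous_const_mul ζ).tendsto 0)
    obtain ⟨v, ⟨⟨a1, a2⟩, b1, b2⟩, hv⟩ := ((((t1.eventually (ev.and hW)).and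
      (t2.eventually (ev.and hW))).filter_mono (nhdsWithin_le_nhds (s := {0}ᶜ))).and
      self_mem_nhdsWithin).exists
    rw [Φ.apply_symm_apply] at a1 b1
    rw [mul_pow, hζ.pow_eq_one, one_mul, ← a1, sub_left_inj] at b1
    have := Φ.symm.injective (hi b2 a2 b1)
    exact hζ.ne_one (by omega) (mul_left_eq_self₀.1 this |>.resolve_right hv)
  simp only [pow_one] at ev
  refine ⟨⟨V ∩ _, inter_mem hV ev, L, hL.mono fun y hy => ⟨hy.1.1, hy.2⟩, fun y hy => ?_⟩,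
    Φ.trans (Homeomorph.addRight (G z₀)), ev.mono fun z hz => ?_⟩
  · rw [hy.1.2, ← eL y ⟨hy.1.1, hy.2⟩, h0, sub_zero]
  · simp [← hz]

theorem pow_inj {a : ℂ} (ha : a ≠ 0) {d : ℕ} (hd : 1 ≤ d) :
    ∃ W ∈ 𝓝 a, InjOn (fun z : ℂ => z ^ d) W := by
  have h := hasStrictDerivAt_pow d a
  have h0 : (d : ℂ) * a ^ (d - 1) ≠ 0 :=
    mul_ne_zero (by exact_mod_cast (by omega : d ≠ 0)) (pow_ne_zero _ ha)
  exact ⟨_, h.eventually_left_inverse h0, fun x hx y hy e => by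
    rw [← hx, ← hy]
    exact congrArg _ e⟩

theorem Aff.normal {G : ℂ → ℂ} {U : Set ℂ} (h : Aff G U) {z₀ : ℂ} (hz : z₀ ∈ U) :
    ∃ d : ℕ, 1 ≤ d ∧ ∃ Φ : ℂ ≃ₜ ℂ, Φ z₀ = 0 ∧ ∃ V, IsOpen V ∧ z₀ ∈ V ∧
      ∀ z ∈ V, G z - G z₀ = Φ z ^ d ∧ Pos Φ z := by
  obtain ⟨d, d0, Φ, h0, hp, ev⟩ := h.loc hz
  obtain ⟨V, hV, ho, hzV⟩ := _root_.mem_nhds_iff.1 (ev.and (h.1.mem_nhds hz))
  refine ⟨d, d0, Φ, h0, V, ho, hzV, fun z hz => ⟨(hV hz).1, ?_⟩⟩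
  by_cases e : z = z₀
  · rwa [e]
  have a0 : Φ z ≠ 0 := fun c => e (Φ.injective (c.trans h0.symm))
  obtain ⟨W, hW, hi⟩ := pow_inj a0 d0
  obtain ⟨⟨U', hU', L, hL, eL⟩, -⟩ := h.one (hV hz).2 (W := V ∩ Φ ⁻¹' W)
    (inter_mem (ho.mem_nhds hz) (Φ.continuous.continuousAt.preimage_mem_nhds hW))
    fun x hx y hy e => Φ.injective (hi hx.2 hy.2 (by
      show Φ x ^ d = Φ y ^ d
      rw [← (hV hx.1).1, ← (hV hy.1).1, e]))
  obtain ⟨T, hT⟩ : ∃ T : ℂ → ℂ, ∀ y, T y = ∑ i ∈ Finset.range d, Φ y ^ i * Φ z ^ (d - 1 - i) :=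
    ⟨_, fun _ => rfl⟩
  have Tc : Continuous T := by rw [funext hT]; fun_prop
  have T0 : T z ≠ 0 := by
    rw [hT, geom_sum₂_self]
    exact mul_ne_zero (by exact_mod_cast (by omega : d ≠ 0)) (pow_ne_zero _ a0)
  obtain ⟨r, hr, hb⟩ := nhds_basis_ball.mem_iff.1 (Tc.continuousAt.eventually_ne T0)
  obtain ⟨M, hM, eM⟩ := Lg.conv (ball z r) T (convex_ball _ _) Tc.continuousOn hb
  refine ⟨U' ∩ (V ∩ ball z r), inter_mem hU' (inter_mem (ho.mem_nhds hz) (ball_mem_nhds z hr)),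
    fun y => L y - M y, (hL.mono fun y hy => ⟨hy.1.1, hy.2⟩).sub (hM.mono fun y hy => hy.1.2.2),
    fun y hy => ?_⟩
  have e1 := eL y ⟨hy.1.1, hy.2⟩
  have e2 : T y * (Φ y - Φ z) = G y - G z := by
    rw [hT, (Commute.all _ _).geom_sum₂_mul, ← (hV hy.1.2.1).1, ← (hV hz).1]
    ring
  rw [exp_sub, eM y hy.1.2.2, div_mul_eq_mul_div, ← e1, ← e2,
    mul_div_cancel_left₀ _ (hb hy.1.2.2)]

variable {X : Type} [TopologicalSpace X]

theorem so_symm {φ ψ : OpenPartialHomeomorph X ℂ} {x : X} (h : SameOrientation φ ψ x) :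
    SameOrientation ψ φ x := by
  obtain ⟨U, hU, L, hL, e⟩ := h
  refine ⟨U, hU, fun y => -L y, hL.neg, fun y hy => ?_⟩
  rw [e y hy, ← mul_assoc, ← exp_add, neg_add_cancel, exp_zero, one_mul]

theorem so_trans {φ ψ χ : OpenPartialHomeomorph X ℂ} {x : X} (h : SameOrientation φ ψ x)
    (h' : SameOrientation ψ χ x) : SameOrientation φ χ x := by
  obtain ⟨U, hU, L, hL, e⟩ := h
  obtain ⟨V, hV, M, hM, e'⟩ := h'
  refine ⟨U ∩ V, inter_mem hU hV, fun y => L y + M y,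
    (hL.mono fun y hy => ⟨hy.1.1, hy.2⟩).add (hM.mono fun y hy => ⟨hy.1.2, hy.2⟩), fun y hy => ?_⟩
  rw [e y ⟨hy.1.1, hy.2⟩, e' y ⟨hy.1.2, hy.2⟩, exp_add, mul_assoc]

theorem so_of_pos {φ σ : OpenPartialHomeomorph X ℂ} {x : X} (hx : x ∈ σ.source) {h : ℂ → ℂ}
    (hp : Pos h (σ x)) (e : ∀ᶠ y in 𝓝 x, φ y = h (σ y)) : SameOrientation φ σ x := by
  obtain ⟨U, hU, L, hL, eL⟩ := hp
  have m : ∀ y ∈ (σ.source ∩ (σ ⁻¹' U ∩ {y | φ y = h (σ y)})) \ {x}, σ y ∈ U \ {σ x} :=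
    fun y hy => ⟨hy.1.2.1, fun c => hy.2 (σ.injOn hy.1.1 hx c)⟩
  refine ⟨σ.source ∩ (σ ⁻¹' U ∩ {y | φ y = h (σ y)}), inter_mem (σ.open_source.mem_nhds hx)
    (inter_mem ((σ.continuousAt hx).preimage_mem_nhds hU) e), fun y => L (σ y),
    hL.comp (σ.continuousOn.mono fun y hy => hy.1.1) m, fun y hy => ?_⟩
  rw [hy.1.2.2, e.self_of_nhds, eL _ (m y hy)]

/-- `f` is piecewise linear of positive determinant in the charts `σ`. -/
def PL {ι : Type} (σ : ι → OpenPartialHomeomorph X ℂ) (f : X → X) : Prop :=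
  ∀ i k, Aff (fun z => σ k (f ((σ i).symm z)))
    ((σ i).target ∩ (σ i).symm ⁻¹' (f ⁻¹' (σ k).source))

variable {ι : Type} {σ : ι → OpenPartialHomeomorph X ℂ} {f : X → X}

theorem PL.mem {i k : ι} {x : X} (hi : x ∈ (σ i).source) (hk : f x ∈ (σ k).source) :
    σ i x ∈ (σ i).target ∩ (σ i).symm ⁻¹' (f ⁻¹' (σ k).source) :=
  ⟨(σ i).map_source hi, by rwa [mem_preimage, (σ i).left_inv hi]⟩

theorem PL.one (h : PL σ f) {i k : ι} {x : X} (hi : x ∈ (σ i).source) (hk : f x ∈ (σ k).source)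
    {W : Set X} (hW : W ∈ 𝓝 x) (hj : InjOn f W) :
    Pos (fun z => σ k (f ((σ i).symm z))) (σ i x) ∧
      ∃ Φ : ℂ ≃ₜ ℂ, ∀ᶠ z in 𝓝 (σ i x), σ k (f ((σ i).symm z)) = Φ z := by
  refine (h i k).one (PL.mem hi hk) (W := ((σ i).target ∩ (σ i).symm ⁻¹' (f ⁻¹' (σ k).source)) ∩
    (σ i).symm ⁻¹' W) (inter_mem ((h i k).1.mem_nhds (PL.mem hi hk))
      (((σ i).continuousAt_symm ((σ i).map_source hi)).preimage_mem_nhds
        (by rwa [(σ i).left_inv hi]))) fun a ha b hb e => ?_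
  exact (σ i).symm.injOn ha.1.1 hb.1.1 (hj ha.2 hb.2 ((σ k).injOn ha.1.2 hb.1.2 e))

theorem PL.so (h : PL σ id) {i k : ι} {x : X} (hi : x ∈ (σ i).source) (hk : x ∈ (σ k).source) :
    SameOrientation (σ k) (σ i) x := by
  refine so_of_pos hi (h.one hi hk univ_mem (injOn_id _)).1 ?_
  filter_upwards [(σ i).open_source.mem_nhds hi] with y hy
  rw [(σ i).left_inv hy, id]

theorem PL.locHomeo (h : PL σ f) (hc : Continuous f) (cov : ∀ x, ∃ i, x ∈ (σ i).source) {x : X}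
    {W : Set X} (hW : W ∈ 𝓝 x) (hj : InjOn f W) : IsLocalHomeomorphOn f {x} := by
  obtain ⟨i, hi⟩ := cov x
  obtain ⟨k, hk⟩ := cov (f x)
  obtain ⟨-, Φ, ev⟩ := h.one hi hk hW hj
  have ev2 : ∀ᶠ y in 𝓝 x, σ k (f y) = Φ (σ i y) ∧ f y ∈ (σ k).source := by
    filter_upwards [((σ i).continuousAt hi).eventually ev, (σ i).open_source.mem_nhds hi,
      hc.continuousAt.preimage_mem_nhds ((σ k).open_source.mem_nhds hk)] with y h1 h2 h3
    rw [(σ i).left_inv h2] at h1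
    exact ⟨h1, h3⟩
  obtain ⟨V, hV, ho, hx⟩ := _root_.mem_nhds_iff.1 ev2
  refine IsLocalHomeomorphOn.mk _ _ fun y hy => ?_
  obtain rfl : y = x := hy
  refine ⟨(((σ i).trans Φ.toOpenPartialHomeomorph).trans (σ k).symm).restrOpen V ho,
    ⟨⟨⟨hi, trivial⟩, ?_⟩, hx⟩, fun z hz => ?_⟩
  · show Φ (σ i y) ∈ (σ k).target
    rw [← (hV hx).1]
    exact (σ k).map_source hk
  · show f z = (σ k).symm (Φ (σ i z))
    rw [← (hV hz.2).1, (σ k).left_inv (hV hz.2).2]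

theorem PL.branched (h : PL σ f) (h1 : PL σ id) (cov : ∀ x, ∃ i, x ∈ (σ i).source)
    (hc : Continuous f) (hs : Function.Surjective f) : IsBranchedCovering f := by
  refine ⟨hc, hs, {φ | ∀ x ∈ φ.source, ∀ i, x ∈ (σ i).source → SameOrientation φ (σ i) x},
    ⟨fun x => ?_, fun φ hφ ψ hψ x hx => ?_⟩, fun p => ?_⟩
  · obtain ⟨i, hi⟩ := cov x
    exact ⟨σ i, fun y hy k hk => h1.so hk hy, hi⟩
  · obtain ⟨i, hi⟩ := cov x
    exact so_trans (hφ x hx.1 i hi) (so_symm (hψ x hx.2 i hi))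
  obtain ⟨i, hi⟩ := cov p
  obtain ⟨k, hk⟩ := cov (f p)
  obtain ⟨d, d0, Φ, h0, V, ho, hp, hV⟩ := (h i k).normal (PL.mem hi hk)
  refine ⟨((σ i).trans (OpenPartialHomeomorph.ofSet V ho)).trans Φ.toOpenPartialHomeomorph,
    fun x hx j hj => so_trans (so_of_pos hx.1.1 (hV _ hx.1.2).2 (Eventually.of_forall fun _ => rfl))
      (h1.so hj hx.1.1),
    (σ k).trans (Homeomorph.subRight (σ k (f p))).toOpenPartialHomeomorph,
    fun x hx j hj => so_trans ⟨univ, univ_mem, fun _ => 0, continuousOn_const, fun y _ => by simp⟩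
      (h1.so hj hx.1), d, d0, ⟨⟨hi, hp⟩, trivial⟩, ⟨hk, trivial⟩, h0, by simp, ?_⟩
  filter_upwards [(σ i).open_source.mem_nhds hi,
    ((σ i).continuousAt hi).preimage_mem_nhds (ho.mem_nhds hp)] with y a b
  have := (hV _ b).1
  rw [(σ i).left_inv a, (σ i).left_inv hi] at this
  exact this

end Pool.Agent.P.MP_cb5d8b_an.Mp
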