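import Pool.Agent.P.MP_cb5d8b_an.Log

/-! Continuous selections of affine maps of positive determinant are locally powers. -/

namespace Pool.Agent.P.MP_cb5d8b_an.Mp

open Set Metric Filter Topology Complex

/-- Real affine maps of the plane, given by two columns and a translation. -/
abbrev Af : Type := ℂ × ℂ × ℂ

/-- The linear part. -/
def li (m : Af) (z : ℂ) : ℂ := z.re * m.1 + z.im * m.2.1

/-- The affine map. -/
def af (m : Af) (z : ℂ) : ℂ := li m z + m.2.2

/-- The determinant. -/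
def dt (m : Af) : ℝ := m.1.re * m.2.1.im - m.1.im * m.2.1.re

/-- The area form. -/
def wg (v w : ℂ) : ℝ := v.re * w.im - v.im * w.re

theorem li_cont (m : Af) : Continuous (li m) := by unfold li; fun_prop

theorem af_cont (m : Af) : Continuous (af m) := (li_cont m).add continuous_const

theorem af_sub (m : Af) (z w : ℂ) : af m z - af m w = li m (z - w) := by
  simp only [af, li, sub_re, sub_im]
  push_cast
  ring

theorem li_smul (m : Af) (t : ℝ) (z : ℂ) : li m (t * z) = t * li m z := by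
  simp only [li, re_ofReal_mul, im_ofReal_mul]
  push_cast
  ring

theorem wg_li (m : Af) (v w : ℂ) : wg (li m v) (li m w) = dt m * wg v w := by
  simp only [wg, li, dt, add_re, add_im, re_ofReal_mul, im_ofReal_mul]
  ring

theorem li_ne {m : Af} (hm : dt m ≠ 0) {v : ℂ} (hv : v ≠ 0) : li m v ≠ 0 := fun e => by
  have h := wg_li m v (I * v)
  rw [e] at h
  have h2 : wg v (I * v) = normSq v := by simp [wg, normSq_apply]
  rw [h2] at h
  simp only [wg, zero_re, zero_im, zero_mul, sub_self] at h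
  rcases mul_eq_zero.1 h.symm with h | h
  · exact hm h
  · exact hv (normSq_eq_zero.1 h)

/-- Composition. -/
def cp (m n : Af) : Af := (li m n.1, li m n.2.1, af m n.2.2)

theorem af_cp (m n : Af) (z : ℂ) : af (cp m n) z = af m (af n z) := by
  simp only [af, cp, li, add_re, add_im, re_ofReal_mul, im_ofReal_mul]
  push_cast
  ring

theorem dt_cp (m n : Af) : dt (cp m n) = dt m * dt n := wg_li m _ _

/-- The inverse. -/
noncomputable def iv (m : Af) : Af :=
  (⟨m.2.1.im / dt m, -m.1.im / dt m⟩, ⟨-m.2.1.re / dt m, m.1.re / dt m⟩,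
    ⟨(m.2.1.re * m.2.2.im - m.2.1.im * m.2.2.re) / dt m,
      (m.1.im * m.2.2.re - m.1.re * m.2.2.im) / dt m⟩)

theorem iv_af {m : Af} (hm : dt m ≠ 0) (z : ℂ) : af (iv m) (af m z) = z := by
  apply Complex.ext <;>
    simp only [af, iv, li, add_re, add_im, re_ofReal_mul, im_ofReal_mul] <;>
    field_simp <;> unfold dt <;> ring

theorem af_iv {m : Af} (hm : dt m ≠ 0) (z : ℂ) : af m (af (iv m) z) = z := by
  apply Complex.ext <;>
    simp only [af, iv, li, add_re, add_im, re_ofReal_mul, im_ofReal_mul] <;>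
    field_simp <;> unfold dt <;> ring

theorem dt_iv {m : Af} (hm : dt m ≠ 0) : dt (iv m) = 1 / dt m := by
  have : dt (iv m) = dt m / dt m / dt m := by
    conv_lhs => simp only [dt, iv]
    conv_rhs => enter [1, 1]; unfold dt
    change _ / dt m * (_ / dt m) - _ / dt m * (_ / dt m) = _
    ring
  rw [this, div_self hm]

theorem af_inj {m : Af} (hm : dt m ≠ 0) : Function.Injective (af m) :=
  Function.LeftInverse.injective (iv_af hm)

theorem desc {P : ℂ → ℂ} (hP : Continuous P) (hp : Function.Periodic P (2 * Real.pi * I)) :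
    ContinuousOn (fun z => P (log z)) {0}ᶜ ∧ ∀ w, P (log (exp w)) = P w := by
  have k : ∀ w, P (log (exp w)) = P w := fun w => by
    obtain ⟨n, hn⟩ := exp_eq_exp_iff_exists_int.1 (exp_log (exp_ne_zero w))
    rw [hn]
    exact hp.int_mul n w
  refine ⟨fun z₀ h0 => ContinuousAt.continuousWithinAt ?_, k⟩
  have h0' : z₀ ≠ 0 := h0
  have c : ContinuousAt (fun z => P (log z₀ + log (z / z₀))) z₀ :=
    hP.continuousAt.comp (continuousAt_const.add (ContinuousAt.clog (by fun_prop)
      (by simp [div_self h0'])))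
  refine c.congr ?_
  filter_upwards [isOpen_compl_singleton.mem_nhds h0] with z hz
  have hz' : z ≠ 0 := hz
  rw [← k, exp_add, exp_log h0', exp_log (div_ne_zero hz' h0'), mul_div_cancel₀ _ h0']

theorem down {Λ : ℂ → ℂ} (hΛ : Continuous Λ)
    (hp : ∀ w, Λ (w + 2 * Real.pi * I) = Λ w + 2 * Real.pi * I) {α C : ℝ} (hα : 0 < α)
    (hb : ∀ w, (Λ w).re ≤ α * w.re + C) :
    ∃ Φ L : ℂ → ℂ, Continuous Φ ∧ ContinuousOn L {0}ᶜ ∧ (∀ z, Φ z = exp (L z) * z) ∧
      ∀ w, Φ (exp w) = exp (Λ w) := by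
  obtain ⟨h1, h2⟩ := desc (P := fun w => Λ w - w) (by fun_prop) fun w => by
    simp only [hp]; ring
  have e : ∀ w, exp (Λ (log (exp w)) - log (exp w)) * exp w = exp (Λ w) := fun w => by
    rw [h2 w, ← exp_add, sub_add_cancel]
  refine ⟨fun z => exp (Λ (log z) - log z) * z, _, ?_, h1, fun _ => rfl, e⟩
  rw [continuous_iff_continuousAt]
  intro z
  by_cases hz : z = 0
  · subst hz
    unfold ContinuousAt
    simp only [mul_zero]
    refine squeeze_zero_norm (a := fun z : ℂ => Real.exp C * ‖z‖ ^ α) (fun z => ?_) ?_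
    · by_cases hz : z = 0
      · rw [hz, mul_zero, norm_zero]
        positivity
      · have := e (log z)
        rw [exp_log hz] at this
        rw [this, norm_exp, Real.rpow_def_of_pos (norm_pos_iff.2 hz), ← Real.exp_add]
        refine Real.exp_le_exp.2 ?_
        have := hb (log z)
        rw [log_re] at this
        linarith
    · have : Continuous fun z : ℂ => Real.exp C * ‖z‖ ^ α :=
        continuous_const.mul (continuous_norm.rpow_const fun _ => Or.inr hα.le)
      simpa [Real.zero_rpow hα.ne'] using this.tendsto 0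
  · exact (h1.continuousAt (isOpen_compl_singleton.mem_nhds hz)).cexp.mul continuousAt_id

theorem strictMono_of {θ : ℝ → ℝ} (hc : Continuous θ) (h : ∀ t, ∃ᶠ s in 𝓝[>] t, θ t < θ s) :
    StrictMono θ := by
  have mono : Monotone θ := by
    intro a b ab
    by_contra hn
    push Not at hn
    have hK : IsCompact (Icc a b ∩ {s | θ a ≤ θ s}) :=
      isCompact_Icc.inter_right (isClosed_le continuous_const hc)
    obtain ⟨t, ht, hmax⟩ := hK.exists_isGreatest ⟨a, ⟨le_rfl, ab⟩, le_refl (θ a)⟩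
    have tb : t < b := ht.1.2.lt_of_ne fun e => by
      have := ht.2
      rw [e] at this
      exact absurd hn (not_lt.2 this)
    obtain ⟨s, hs1, hs2⟩ := ((h t).and_eventually (Ioo_mem_nhdsGT tb)).exists
    have := hmax (a := s) ⟨⟨ht.1.1.trans hs2.1.le, hs2.2.le⟩, le_trans ht.2 hs1.le⟩
    linarith [hs2.1]
  intro a b ab
  obtain ⟨s, hs1, hs2⟩ := ((h a).and_eventually (Ioo_mem_nhdsGT ab)).exists
  exact hs1.trans_le (mono hs2.2.le)

theorem wg_exp (a b : ℂ) :
    wg (exp a) (exp b) = Real.exp a.re * Real.exp b.re * Real.sin (b.im - a.im) := by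
  simp only [wg, exp_re, exp_im, Real.sin_sub]
  ring

theorem cone {H : ℂ → ℂ} {S : Set Af} (hS : S.Finite) (hd : ∀ m ∈ S, 0 < dt m) {r : ℝ}
    (hr : 0 < r) (hc : ContinuousOn H (closedBall 0 r))
    (hs : ∀ z ∈ closedBall (0 : ℂ) r, ∃ m ∈ S, H z = li m z) :
    ∃ d : ℕ, 1 ≤ d ∧ ∃ Φ : ℂ ≃ₜ ℂ, (∃ L : ℂ → ℂ, ContinuousOn L {0}ᶜ ∧
      ∀ z, Φ z = exp (L z) * z) ∧ ∀ z ∈ closedBall (0 : ℂ) r, H z = Φ z ^ d := by
  obtain ⟨v, hv⟩ : ∃ v : ℝ → ℂ, ∀ t, v t = exp (Real.log r + t * I) := ⟨_, fun _ => rfl⟩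
  have vc : Continuous v := by rw [funext hv]; fun_prop
  have vn : ∀ t, ‖v t‖ = r := fun t => by simp [hv, norm_exp, Real.exp_log hr]
  have v0 : ∀ t, v t ≠ 0 := fun t => hv t ▸ exp_ne_zero _
  have vm : ∀ t, v t ∈ closedBall (0 : ℂ) r := fun t => by simp [vn]
  have hom : ∀ t, ∀ x : ℝ, 0 < x → x ≤ 1 → H (x * v t) = x * H (v t) := by
    intro t x x0 x1
    have mem : ∀ y ∈ Ioc (0 : ℝ) 1, (y : ℂ) * v t ∈ closedBall (0 : ℂ) r := fun y hy => by
      rw [mem_closedBall_zero_iff, norm_mul, vn, norm_real, Real.norm_of_nonneg hy.1.le]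
      nlinarith [hy.2]
    have := (isPreconnected_Ioc (a := (0 : ℝ)) (b := 1)).constant_of_mapsTo
      (hS.image fun m => li m (v t)).isDiscrete (f := fun y : ℝ => H (y * v t) / y)
      ((hc.comp (by fun_prop) mem).div (by fun_prop) fun y hy => by exact_mod_cast hy.1.ne')
      (fun y hy => by
        obtain ⟨m, hm, e⟩ := hs _ (mem y hy)
        refine ⟨m, hm, ?_⟩
        beta_reduce
        rw [e, li_smul, mul_div_cancel_left₀ _ (by exact_mod_cast hy.1.ne')])
      (x := x) (y := 1) ⟨x0, x1⟩ ⟨one_pos, le_rfl⟩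
    simp only [ofReal_one, one_mul, div_one] at this
    rw [← this, mul_div_cancel₀ _ (by exact_mod_cast x0.ne')]
  have gc : Continuous fun t => H (v t) := hc.comp_continuous vc vm
  obtain ⟨lam, lc, le⟩ : ∃ lam : ℝ → ℂ, Continuous lam ∧ ∀ t, exp (lam t) = H (v t) := by
    obtain ⟨L, hL, e⟩ := Lg.conv univ (fun z => H (v z.re)) convex_univ
      (gc.comp continuous_re).continuousOn fun z _ => by
        obtain ⟨m, hm, e⟩ := hs _ (vm z.re)
        rw [e]
        exact li_ne (hd m hm).ne' (v0 _)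
    exact ⟨fun t => L t, (continuousOn_univ.1 hL).comp continuous_ofReal, fun t => by
      simpa using e t trivial⟩
  have vp : ∀ t, v (t + 2 * Real.pi) = v t := fun t => by
    rw [hv, hv, exp_eq_exp_iff_exists_int]
    exact ⟨1, by push_cast; ring⟩
  obtain ⟨n, hn⟩ : ∃ n : ℤ, ∀ t, lam (t + 2 * Real.pi) = lam t + n * (2 * Real.pi * I) := by
    have e1 : ∀ t, exp (lam (t + 2 * Real.pi) - lam t) = 1 := fun t => by
      rw [exp_sub, le, vp, ← le, div_self (exp_ne_zero _)]
    obtain ⟨n, hn⟩ := exp_eq_one_iff.1 (e1 0)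
    refine ⟨n, fun t => ?_⟩
    rw [← hn, ← Lg.const' (K := univ) (fun t => lam (t + 2 * Real.pi) - lam t)
      isPreconnected_univ (by fun_prop) 1 (fun t _ => e1 t) t trivial 0 trivial]
    ring
  have tc : Continuous fun t => (lam t).im := by fun_prop
  have sm : StrictMono fun t => (lam t).im := by
    refine strictMono_of tc fun t => ?_
    have fr : ∃ m ∈ S, ∃ᶠ s in 𝓝[>] t, H (v s) = li m (v s) := by
      by_contra hn
      push Not at hn
      obtain ⟨s, hs'⟩ := ((eventually_all_finite hS).2 hn).exists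
      obtain ⟨m, hm, e⟩ := hs _ (vm s)
      exact hs' m hm e
    obtain ⟨m, hm, fr⟩ := fr
    have et : H (v t) = li m (v t) :=
      (isClosed_eq gc ((li_cont m).comp vc)).mem_of_frequently_of_tendsto (x := t)
        (f := id) (b := 𝓝[>] t) fr (tendsto_id'.2 nhdsWithin_le_nhds)
    have ev : ∀ᶠ s in 𝓝[>] t, -Real.pi < (lam s).im - (lam t).im :=
      nhdsWithin_le_nhds (ContinuousAt.eventually_lt (f := fun _ => -Real.pi)
        (g := fun s => (lam s).im - (lam t).im) continuousAt_const (by fun_prop)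
        (by simp [Real.pi_pos]))
    refine (fr.and_eventually (ev.and (Ioo_mem_nhdsGT (lt_add_of_pos_right t Real.pi_pos)))).mono
      fun s ⟨h1, h2, h3⟩ => ?_
    have w1 := wg_li m (v t) (v s)
    rw [← et, ← h1, ← le, ← le, wg_exp, hv, hv, wg_exp] at w1
    have w2 : 0 < Real.sin (s - t) :=
      Real.sin_pos_of_pos_of_lt_pi (by linarith [h3.1]) (by linarith [h3.2])
    have w3 : 0 < Real.sin ((lam s).im - (lam t).im) := by
      have := hd m hm
      simp only [add_im, ofReal_im, mul_im, ofReal_re, I_im, mul_one, I_re, mul_zero, add_zero,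
        zero_add] at w1
      refine (mul_pos_iff_of_pos_left (a := Real.exp (lam t).re * Real.exp (lam s).re)
        (by positivity)).1 ?_
      rw [w1]
      positivity
    by_contra hn
    exact absurd w3 (not_lt.2 (Real.sin_nonpos_of_nonpos_of_neg_pi_le (by linarith) h2.le))
  have tp : ∀ t, (lam (t + 2 * Real.pi)).im = (lam t).im + n * (2 * Real.pi) := fun t => by
    simp [hn]
  have n0 : 0 < n := by
    have := sm (show (0 : ℝ) < 0 + 2 * Real.pi by linarith [Real.pi_pos])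
    simp only [tp] at this
    have h2 : (0 : ℝ) < n := pos_of_mul_pos_right (b := n) (a := 2 * Real.pi)
      (by linarith) (by positivity)
    exact_mod_cast h2
  lift n to ℕ using n0.le with d
  have d0 : (0 : ℝ) < d := by exact_mod_cast n0
  have d0' : (d : ℂ) ≠ 0 := by exact_mod_cast d0.ne'
  push_cast at hn tp
  have tj : ∀ j : ℤ, (lam (j * (2 * Real.pi))).im = (lam 0).im + j * (d * (2 * Real.pi)) := by
    intro j
    have := (show Function.Periodic (fun t => (lam t).im - d * t) (2 * Real.pi) from fun t => by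
      simp only [tp]; ring).int_mul j 0
    simp only [zero_add, mul_zero, sub_zero] at this
    linarith
  have su : Function.Surjective fun t => (lam t).im := fun y => by
    have c0 : 0 < d * (2 * Real.pi) := by positivity
    obtain ⟨N, hN⟩ := exists_nat_ge (|y - (lam 0).im| / (d * (2 * Real.pi)))
    rw [div_le_iff₀ c0, abs_le] at hN
    refine mem_range_of_exists_le_of_exists_ge tc ⟨((-N : ℤ) : ℝ) * (2 * Real.pi), ?_⟩
      ⟨((N : ℤ) : ℝ) * (2 * Real.pi), ?_⟩ <;> simp only [tj] <;> push_cast <;> linarith [hN.1, hN.2]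
  obtain ⟨τ, τc, τ1, τ2⟩ : ∃ τ : ℝ → ℝ, Continuous τ ∧ (∀ t, τ (lam t).im = t) ∧
      ∀ y, (lam (τ y)).im = y :=
    ⟨(sm.orderIsoOfSurjective _ su).symm, (sm.orderIsoOfSurjective _ su).symm.continuous,
      (sm.orderIsoOfSurjective _ su).symm_apply_apply,
      (sm.orderIsoOfSurjective _ su).apply_symm_apply⟩
  obtain ⟨C, hC⟩ : ∃ C, ∀ t, |(lam t).re| ≤ C := by
    have := (show Function.Periodic (fun t => (lam t).re) (2 * Real.pi) from fun t => by
      simp [hn]).isBounded_of_continuous (by positivity) (by fun_prop)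
    obtain ⟨C, hC⟩ := this.exists_norm_le
    exact ⟨C, fun t => hC _ ⟨t, rfl⟩⟩
  obtain ⟨Λ, hΛ⟩ : ∃ Λ : ℂ → ℂ, ∀ w, Λ w = (((w.re - Real.log r : ℝ) : ℂ) + lam w.im) / d :=
    ⟨_, fun _ => rfl⟩
  obtain ⟨Γ, hΓ⟩ : ∃ Γ : ℂ → ℂ, ∀ w, Γ w =
      ((d * w.re + Real.log r - (lam (τ (d * w.im))).re : ℝ) : ℂ) + (τ (d * w.im) : ℝ) * I :=
    ⟨_, fun _ => rfl⟩
  have Λr : ∀ w, (Λ w).re = (w.re - Real.log r + (lam w.im).re) / d := fun w => by
    rw [hΛ, div_natCast_re]; simp
  have Λi : ∀ w, (Λ w).im = (lam w.im).im / d := fun w => by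
    rw [hΛ, div_natCast_im]; simp
  have Γr : ∀ w, (Γ w).re = d * w.re + Real.log r - (lam (τ (d * w.im))).re := fun w => by
    rw [hΓ]; simp
  have Γi : ∀ w, (Γ w).im = τ (d * w.im) := fun w => by
    rw [hΓ]; simp
  have ΓΛ : ∀ w, Γ (Λ w) = w := fun w => by
    apply Complex.ext
    · rw [Γr, Λr, Λi, mul_div_cancel₀ _ d0.ne', mul_div_cancel₀ _ d0.ne', τ1]
      ring
    · rw [Γi, Λi, mul_div_cancel₀ _ d0.ne', τ1]
  have ΛΓ : ∀ w, Λ (Γ w) = w := fun w => by
    apply Complex.ext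
    · rw [Λr, Γr, Γi]
      field_simp
      ring
    · rw [Λi, Γi, τ2, mul_div_cancel_left₀ _ d0.ne']
  have Λp : ∀ w, Λ (w + 2 * Real.pi * I) = Λ w + 2 * Real.pi * I := fun w => by
    rw [hΛ, hΛ, show (w + 2 * Real.pi * I).im = w.im + 2 * Real.pi by simp, hn,
      show (w + 2 * Real.pi * I).re = w.re by simp]
    field_simp
    ring
  obtain ⟨Φ, L, c1, c2, c3, c4⟩ := down (Λ := Λ) (by rw [funext hΛ]; fun_prop) Λp
    (α := 1 / d) (C := (C - Real.log r) / d) (by positivity) fun w => by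
      rw [Λr, one_div_mul_eq_div, ← add_div, div_le_div_iff_of_pos_right d0]
      linarith [(abs_le.1 (hC w.im)).2]
  obtain ⟨Ψ, L', b1, -, b3, b4⟩ := down (Λ := Γ) (by rw [funext hΓ]; fun_prop)
    (fun w => by
      conv_lhs => rw [← ΛΓ w, ← Λp, ΓΛ])
    (α := d) (C := C + Real.log r) d0 fun w => by
      rw [Γr]
      linarith [(abs_le.1 (hC (τ (d * w.im)))).1]
  have Φ0 : Φ 0 = 0 := by rw [c3, mul_zero]
  have Ψ0 : Ψ 0 = 0 := by rw [b3, mul_zero]
  refine ⟨d, by exact_mod_cast n0, ⟨⟨Φ, Ψ, fun z => ?_, fun z => ?_⟩, c1, b1⟩, ⟨L, c2, c3⟩,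
    fun z hz => ?_⟩
  · by_cases h : z = 0
    · rw [h, Φ0, Ψ0]
    · rw [← exp_log h, c4, b4, ΓΛ]
  · by_cases h : z = 0
    · rw [h, Ψ0, Φ0]
    · rw [← exp_log h, b4, c4, ΛΓ]
  · change H z = Φ z ^ d
    by_cases h : z = 0
    · obtain ⟨m, -, e⟩ := hs z hz
      rw [e, h, Φ0, zero_pow (by exact_mod_cast n0.ne')]
      simp [li]
    · have e1 : z = (Real.exp ((log z).re - Real.log r) : ℝ) * v (log z).im := by
        rw [hv, ofReal_exp, ← exp_add]
        conv_lhs => rw [← exp_log h, ← re_add_im (log z)]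
        congr 1
        push_cast
        ring
      have e2 : Φ z ^ d = (Real.exp ((log z).re - Real.log r) : ℝ) * H (v (log z).im) := by
        conv_lhs => rw [← exp_log h, c4, ← exp_nat_mul, hΛ, mul_div_cancel₀ _ d0', exp_add, le]
        rw [ofReal_exp]
      rw [e2, ← hom _ _ (Real.exp_pos _), ← e1]
      rw [Real.exp_le_one_iff, log_re, sub_nonpos]
      exact Real.log_le_log (norm_pos_iff.2 h) (mem_closedBall_zero_iff.1 hz)

end Pool.Agent.P.MP_cb5d8b_an.Mp
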