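import Pool.Agent.P.MP_cb5d8b_an.Mp.Dbl

/-! Linear facts about the seven tiles. -/

namespace Pool.Agent.P.MP_cb5d8b_an.Mp

open Set Complex

theorem seven (k : Fin 7) : k = 0 ∨ k = 1 ∨ k = 2 ∨ k = 3 ∨ k = 4 ∨ k = 5 ∨ k = 6 := by
  revert k
  decide

theorem sg_pm (k : Fin 7) : sg k = 1 ∨ sg k = -1 := by
  fin_cases k <;> simp [sg]

theorem sg_dt (k : Fin 7) : 0 < sg k * dt (tile k) := by
  fin_cases k <;> simp [sg, dt, tile] <;> norm_num

theorem dt_ne (k : Fin 7) : dt (tile k) ≠ 0 := fun e => by simpa [e] using sg_dt k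

theorem B_inj (k : Fin 7) : Function.Injective (B k) := af_inj (dt_ne k)

theorem B_cont (k : Fin 7) : Continuous (B k) := af_cont _

/-- The inverse of a branch. -/
noncomputable def A (k : Fin 7) (p : ℂ) : ℂ := af (iv (tile k)) p

theorem A_B (k : Fin 7) (q : ℂ) : A k (B k q) = q := iv_af (dt_ne k) q

theorem B_A (k : Fin 7) (p : ℂ) : B k (A k p) = p := af_iv (dt_ne k) p

theorem A_cont (k : Fin 7) : Continuous (A k) := af_cont _

theorem B_mem (k : Fin 7) {q : ℂ} (h : 0 ≤ rho q) : 0 ≤ rho (B k q) := by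
  rw [le_rho] at h ⊢
  obtain ⟨h1, h2, h3⟩ := h
  rcases seven k with rfl | rfl | rfl | rfl | rfl | rfl | rfl <;>
    simp only [B_re, B_im, Matrix.cons_val] <;> refine ⟨?_, ?_, ?_⟩ <;> linarith

theorem B_pos (k : Fin 7) {q : ℂ} (h : 0 < rho q) : 0 < rho (B k q) := by
  rw [lt_rho] at h ⊢
  obtain ⟨h1, h2, h3⟩ := h
  rcases seven k with rfl | rfl | rfl | rfl | rfl | rfl | rfl <;>
    simp only [B_re, B_im, Matrix.cons_val] <;> refine ⟨?_, ?_, ?_⟩ <;> linarith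

theorem cover {p : ℂ} (h : 0 ≤ rho p) : ∃ k q, 0 ≤ rho q ∧ p = B k q := by
  obtain ⟨h1, h2, h3⟩ := le_rho.1 h
  have key : ∀ (k : Fin 7) (a b : ℝ), 0 ≤ 1 - a - b → 0 ≤ a → 0 ≤ b →
      p.re = (B k ⟨a, b⟩).re → p.im = (B k ⟨a, b⟩).im → ∃ k q, 0 ≤ rho q ∧ p = B k q :=
    fun k a b c1 c2 c3 e1 e2 => ⟨k, ⟨a, b⟩, le_rho.2 ⟨c1, c2, c3⟩, Complex.ext e1 e2⟩
  rcases le_total (3 * p.re + 4 * p.im) 1 with c1 | c1
  · refine key 0 (3 * p.re) (4 * p.im) ?_ ?_ ?_ ?_ ?_ <;>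
      (try simp only [B_re, B_im, Matrix.cons_val]) <;> linarith
  rcases le_total (3 * p.re + 2 * p.im) 1 with c2 | c2
  · refine key 1 (3 * p.re) (2 - 6 * p.re - 4 * p.im) ?_ ?_ ?_ ?_ ?_ <;>
      (try simp only [B_re, B_im, Matrix.cons_val]) <;> linarith
  rcases le_total (3 * p.re + 4 * p.im) 2 with c3 | c3
  · refine key 2 (2 - 3 * p.re - 4 * p.im) (3 * p.re + 2 * p.im - 1) ?_ ?_ ?_ ?_ ?_ <;>
      (try simp only [B_re, B_im, Matrix.cons_val]) <;> linarith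
  rcases le_total 2 (3 * p.re + p.im) with c4 | c4
  · refine key 3 (2 * p.im) (3 - 3 * p.re - 3 * p.im) ?_ ?_ ?_ ?_ ?_ <;>
      (try simp only [B_re, B_im, Matrix.cons_val]) <;> linarith
  rcases le_total p.im (1 / 2) with c5 | c5
  · refine key 4 (2 * p.re + 8 / 3 * p.im - 4 / 3) (1 - 2 * p.im) ?_ ?_ ?_ ?_ ?_ <;>
      (try simp only [B_re, B_im, Matrix.cons_val]) <;> linarith
  rcases le_total (2 * p.re + 4 * p.im) 3 with c6 | c6
  · refine key 5 (2 * p.re) (4 * p.im - 2) ?_ ?_ ?_ ?_ ?_ <;>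
      (try simp only [B_re, B_im, Matrix.cons_val]) <;> linarith
  · refine key 6 (2 * p.re) (4 - 4 * p.re - 4 * p.im) ?_ ?_ ?_ ?_ ?_ <;>
      (try simp only [B_re, B_im, Matrix.cons_val]) <;> linarith

theorem compat {k l : Fin 7} (hkl : k ≠ l) {q q' : ℂ} (h : 0 ≤ rho q) (h' : 0 ≤ rho q')
    (e : B k q = B l q') : q = q' ∧ rho q = 0 := by
  rw [rho_zero h, Complex.ext_iff]
  obtain ⟨h1, h2, h3⟩ := le_rho.1 h
  obtain ⟨h4, h5, h6⟩ := le_rho.1 h'
  obtain ⟨e1, e2⟩ := Complex.ext_iff.1 e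
  rcases seven k with rfl | rfl | rfl | rfl | rfl | rfl | rfl <;>
    rcases seven l with rfl | rfl | rfl | rfl | rfl | rfl | rfl <;>
    first
    | exact absurd rfl hkl
    | simp only [B_re, B_im, Matrix.cons_val] at e1 e2
      refine ⟨⟨by linarith, by linarith⟩, ?_⟩
      first
      | (left; linarith)
      | (right; left; linarith)
      | (right; right; linarith)

theorem uniq {k l : Fin 7} {q q' : ℂ} (h : 0 ≤ rho q) (h' : 0 ≤ rho q') (e : B k q = B l q') :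
    q = q' := by
  by_cases hkl : k = l
  · subst hkl
    exact B_inj k e
  · exact (compat hkl h h' e).1

/-- Barycentric coordinates. -/
def bc (q : ℂ) : Fin 3 → ℝ := ![1 - q.re - q.im, q.re, q.im]

theorem bc_cont (j : Fin 3) : Continuous fun q => bc q j := by
  fin_cases j <;> simp only [bc] <;> simp <;> fun_prop

theorem rho_bc {q : ℂ} (h : 0 ≤ rho q) : rho q = 0 ↔ ∃ j, bc q j = 0 := by
  rw [rho_zero h]
  simp [bc, Fin.exists_fin_succ]

/-- Not a corner. -/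
def NC (q : ℂ) : Prop := 0 < q.re + q.im ∧ q.re < 1 ∧ q.im < 1

theorem nc_of {q : ℂ} (h : 0 ≤ rho q) (hq : q ∉ ({0, 1, I} : Set ℂ)) : NC q := by
  obtain ⟨h1, h2, h3⟩ := le_rho.1 h
  simp only [mem_insert_iff, mem_singleton_iff, not_or, Complex.ext_iff, zero_re, zero_im, one_re,
    one_im, I_re, I_im] at hq
  refine ⟨?_, ?_, ?_⟩ <;> by_contra hc
  · exact hq.1 ⟨by linarith, by linarith⟩
  · exact hq.2.1 ⟨by linarith, by linarith⟩
  · exact hq.2.2 ⟨by linarith, by linarith⟩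

theorem three (j : Fin 3) : j = 0 ∨ j = 1 ∨ j = 2 := by
  revert j
  decide

theorem corner_uniq {k l : Fin 7} (hkl : k ≠ l) {q : ℂ} (h : 0 ≤ rho q) (e : B k q = B l q) :
    B k q ∉ ({0, 1, I} : Set ℂ) := by
  obtain ⟨h1, h2, h3⟩ := le_rho.1 h
  obtain ⟨e1, e2⟩ := Complex.ext_iff.1 e
  simp only [mem_insert_iff, mem_singleton_iff, Complex.ext_iff, zero_re, zero_im, one_re,
    one_im, I_re, I_im]
  rcases seven k with rfl | rfl | rfl | rfl | rfl | rfl | rfl <;>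
    rcases seven l with rfl | rfl | rfl | rfl | rfl | rfl | rfl <;>
    first
    | exact absurd rfl hkl
    | simp only [B_re, B_im, Matrix.cons_val] at e1 e2 ⊢
      rintro (⟨a, b⟩ | ⟨a, b⟩ | ⟨a, b⟩) <;> linarith

theorem edge {k l : Fin 7} (hkl : k ≠ l) {q : ℂ} (h : 0 ≤ rho q) (hq : NC q)
    (e : B k q = B l q) : sg k = -sg l ∧ 0 < rho (B k q) ∧
      ∀ j, bc q j = 0 → ∀ y, bc y j = 0 → B k y = B l y := by
  obtain ⟨h1, h2, h3⟩ := le_rho.1 h
  obtain ⟨h4, h5, h6⟩ := hq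
  obtain ⟨e1, e2⟩ := Complex.ext_iff.1 e
  rw [lt_rho]
  simp only [Complex.ext_iff]
  rcases seven k with rfl | rfl | rfl | rfl | rfl | rfl | rfl <;>
    rcases seven l with rfl | rfl | rfl | rfl | rfl | rfl | rfl <;>
    first
    | exact absurd rfl hkl
    | simp only [B_re, B_im, sg, Matrix.cons_val] at e1 e2 ⊢
      first
      | (exfalso; linarith)
      | refine ⟨by norm_num, ⟨by linarith, by linarith, by linarith⟩, fun j hj y hy => ?_⟩
        rcases three j with rfl | rfl | rfl <;> simp only [bc, Matrix.cons_val] at hj hy <;>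
          constructor <;> first | exact trivial | linarith

theorem bd {k : Fin 7} {q : ℂ} (h : 0 ≤ rho q) (h0 : rho (B k q) = 0)
    (hq : NC q ∨ B k q ∈ ({0, 1, I} : Set ℂ)) {j : Fin 3} (hj : bc q j = 0) {y : ℂ}
    (hy : bc y j = 0) (h' : 0 ≤ rho y) : rho (B k y) = 0 := by
  rw [rho_zero (B_mem k h)] at h0
  rw [rho_zero (B_mem k h')]
  obtain ⟨h1, h2, h3⟩ := le_rho.1 h
  simp only [mem_insert_iff, mem_singleton_iff, Complex.ext_iff, zero_re, zero_im, one_re,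
    one_im, I_re, I_im, NC] at hq
  rcases seven k with rfl | rfl | rfl | rfl | rfl | rfl | rfl <;>
    rcases three j with rfl | rfl | rfl <;>
    simp only [B_re, B_im, bc, Matrix.cons_val] at h0 hq hj hy ⊢ <;>
    first
    | (left; linarith)
    | (right; left; linarith)
    | (right; right; linarith)
    | exfalso
      rcases hq with ⟨a, b, c⟩ | ⟨a, b⟩ | ⟨a, b⟩ | ⟨a, b⟩ <;>
        rcases h0 with d | d | d <;> linarith

/-- Closeness in all three barycentric coordinates. -/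
def Near (v : ℂ) (r : ℝ) : Prop := |v.re| ≤ r ∧ |v.im| ≤ r ∧ |v.re + v.im| ≤ r

theorem near_B (k : Fin 7) {q q' : ℂ} {r : ℝ} (h : Near (q - q') r) :
    Near (B k q - B k q') (2 / 3 * r) := by
  simp only [Near, abs_le, sub_re, sub_im] at h ⊢
  obtain ⟨⟨h1, h2⟩, ⟨h3, h4⟩, h5, h6⟩ := h
  rcases seven k with rfl | rfl | rfl | rfl | rfl | rfl | rfl <;>
    simp only [B_re, B_im, Matrix.cons_val] <;>
    refine ⟨⟨?_, ?_⟩, ⟨?_, ?_⟩, ?_, ?_⟩ <;> linarith

theorem near_one {q q' : ℂ} (h : 0 ≤ rho q) (h' : 0 ≤ rho q') : Near (q - q') 1 := by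
  obtain ⟨h1, h2, h3⟩ := le_rho.1 h
  obtain ⟨h4, h5, h6⟩ := le_rho.1 h'
  simp only [Near, abs_le, sub_re, sub_im]
  refine ⟨⟨?_, ?_⟩, ⟨?_, ?_⟩, ?_, ?_⟩ <;> linarith

end Pool.Agent.P.MP_cb5d8b_an.Mp
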